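import Mathlib

/-!
# MP_d7db32_ag, A: derivatives of minors
-/

set_option autoImplicit false

namespace PadDet

open MvPolynomial Matrix

section Deriv

variable {S R : Type} [CommRing S] [CommRing R] [Algebra S R] (D : Derivation S R R)

theorem der_prod {ι : Type} [DecidableEq ι] (s : Finset ι) (x : ι → R) :
    D (∏ i ∈ s, x i) = ∑ i ∈ s, ∏ j ∈ s, Function.update x i (D (x i)) j := by
  induction s using Finset.induction_on with
  | empty => simp
  | insert a s ha ih =>
    rw [Finset.prod_insert ha, D.leibniz, ih, Finset.sum_insert ha, Finset.prod_insert ha]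
    simp only [smul_eq_mul, Function.update_self]
    have h1 : ∏ j ∈ s, Function.update x a (D (x a)) j = ∏ j ∈ s, x j := by
      refine Finset.prod_congr rfl fun j hj => ?_
      have : j ≠ a := by rintro rfl; exact ha hj
      rw [Function.update_of_ne this]
    have h2 : ∀ i ∈ s, ∏ j ∈ insert a s, Function.update x i (D (x i)) j =
        x a * ∏ j ∈ s, Function.update x i (D (x i)) j := by
      intro i hi
      have : a ≠ i := by rintro rfl; exact ha hi
      rw [Finset.prod_insert ha, Function.update_of_ne this]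
    rw [h1, Finset.sum_congr rfl h2, ← Finset.mul_sum]
    ring

theorem der_det {r : ℕ} (N : Matrix (Fin r) (Fin r) R) :
    D N.det = ∑ i, (N.updateCol i (fun a => D (N a i))).det := by
  simp only [Matrix.det_apply', map_sum]
  rw [Finset.sum_comm]
  refine Finset.sum_congr rfl fun π _ => ?_
  rw [D.leibniz, Derivation.map_intCast, smul_zero, add_zero, der_prod, smul_eq_mul,
    Finset.mul_sum]
  refine Finset.sum_congr rfl fun i _ => ?_
  congr 1
  refine Finset.prod_congr rfl fun j _ => ?_
  by_cases h : j = i
  · subst h; simp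
  · rw [Function.update_of_ne h, Matrix.updateCol_apply, if_neg h]

theorem der_det_succ {r : ℕ} (N : Matrix (Fin (r + 1)) (Fin (r + 1)) R) :
    D N.det = ∑ i : Fin (r + 1), ∑ a : Fin (r + 1), (-1) ^ ((a : ℕ) + (i : ℕ)) * D (N a i) *
      (N.submatrix a.succAbove i.succAbove).det := by
  rw [der_det]
  refine Finset.sum_congr rfl fun i _ => ?_
  rw [Matrix.det_succ_column _ i]
  refine Finset.sum_congr rfl fun a _ => ?_
  rw [Matrix.submatrix_updateCol_succAbove]
  simp

end Deriv

section Minors

variable {σ : Type} [Fintype σ]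

/-- `f` composed with the linear map with matrix `A`. -/
noncomputable def subst (A : Matrix σ σ ℂ) (f : MvPolynomial σ ℂ) : MvPolynomial σ ℂ :=
  aeval (fun i => ∑ j, C (A i j) * X j) f

/-- The determinant of the matrix of variables. -/
noncomputable def detPoly (n : ℕ) : MvPolynomial (Fin n × Fin n) ℂ :=
  (Matrix.mvPolynomialX (Fin n) (Fin n) ℂ).det

/-- The span of the minors of size `r` of `N`. -/
noncomputable def Mi {n : ℕ} (N : Matrix (Fin n) (Fin n) (MvPolynomial σ ℂ)) (r : ℕ) :
    Submodule ℂ (MvPolynomial σ ℂ) :=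
  Submodule.span ℂ (Set.range fun p : (Fin r → Fin n) × (Fin r → Fin n) =>
    (N.submatrix p.1 p.2).det)

omit [Fintype σ] in
/-- A set of `C(n,r)^2` minors spans. -/
theorem Mi_le {n : ℕ} (N : Matrix (Fin n) (Fin n) (MvPolynomial σ ℂ)) (r : ℕ) :
    ∃ e : Fin (n.choose r ^ 2) → MvPolynomial σ ℂ, Mi N r ≤ Submodule.span ℂ (Set.range e) := by
  classical
  let P := {s : Finset (Fin n) // s ∈ Finset.powersetCard r Finset.univ}
  have hP : ∀ s : P, s.1.card = r := fun s => (Finset.mem_powersetCard.1 s.2).2
  let em : P → Fin r → Fin n := fun s => s.1.orderEmbOfFin (hP s)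
  have hcard : Fintype.card (P × P) = n.choose r ^ 2 := by
    rw [Fintype.card_prod, Fintype.card_coe, Finset.card_powersetCard, Finset.card_univ,
      Fintype.card_fin, sq]
  let eq : Fin (n.choose r ^ 2) ≃ P × P := (Fintype.equivFinOfCardEq hcard).symm
  refine ⟨fun i => (N.submatrix (em (eq i).1) (em (eq i).2)).det, ?_⟩
  have key : ∀ I : Fin r → Fin n, Function.Injective I → ∃ (s : P) (π : Equiv.Perm (Fin r)),
      I = em s ∘ π := by
    intro I hI
    have hs : (Finset.univ.image I) ∈ Finset.powersetCard r (Finset.univ : Finset (Fin n)) := by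
      rw [Finset.mem_powersetCard]
      refine ⟨Finset.subset_univ _, ?_⟩
      rw [Finset.card_image_of_injective _ hI, Finset.card_univ, Fintype.card_fin]
    let s : P := ⟨_, hs⟩
    have hr : ∀ i, ∃ j, em s j = I i := by
      intro i
      have : I i ∈ Set.range (s.1.orderEmbOfFin (hP s)) := by
        rw [Finset.range_orderEmbOfFin]
        exact Finset.mem_coe.2 (Finset.mem_image_of_mem _ (Finset.mem_univ _))
      exact this
    choose π hπ using hr
    have hinj : Function.Injective π := by
      intro a b hab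
      apply hI
      rw [← hπ a, ← hπ b, hab]
    refine ⟨s, Equiv.ofBijective π (Finite.injective_iff_bijective.1 hinj), ?_⟩
    funext i
    exact (hπ i).symm
  unfold Mi
  rw [Submodule.span_le]
  rintro _ ⟨⟨I, J⟩, rfl⟩
  show (N.submatrix I J).det ∈ _
  by_cases hI : Function.Injective I
  · by_cases hJ : Function.Injective J
    · obtain ⟨s, π, rfl⟩ := key I hI
      obtain ⟨t, τ, rfl⟩ := key J hJ
      have h1 : N.submatrix (em s ∘ π) (em t ∘ τ) =
          ((N.submatrix (em s) (em t)).submatrix π id).submatrix id τ := by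
        ext; rfl
      rw [h1, Matrix.det_permute', Matrix.det_permute]
      have hm : (N.submatrix (em s) (em t)).det ∈ Submodule.span ℂ
          (Set.range fun i => (N.submatrix (em (eq i).1) (em (eq i).2)).det) := by
        apply Submodule.subset_span
        refine ⟨eq.symm (s, t), ?_⟩
        simp
      have hz : ∀ (z : ℤ) (x : MvPolynomial σ ℂ), (z : MvPolynomial σ ℂ) * x = (z : ℂ) • x := by
        intro z x
        rw [MvPolynomial.smul_eq_C_mul, map_intCast]
      rw [hz, hz]
      exact Submodule.smul_mem _ _ (Submodule.smul_mem _ _ hm)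
    · have : ∃ a b, J a = J b ∧ a ≠ b := by
        by_contra hcon
        push Not at hcon
        exact hJ fun a b hab => hcon a b hab
      obtain ⟨a, b, hab, hne⟩ := this
      rw [Matrix.det_zero_of_column_eq hne (fun i => by simp [hab])]
      exact Submodule.zero_mem _
  · have : ∃ a b, I a = I b ∧ a ≠ b := by
      by_contra hcon
      push Not at hcon
      exact hI fun a b hab => hcon a b hab
    obtain ⟨a, b, hab, hne⟩ := this
    rw [Matrix.det_zero_of_row_eq hne (by ext j; simp [hab])]
    exact Submodule.zero_mem _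

omit [Fintype σ] in
/-- The partial derivatives of minors of a matrix of linear forms. -/
theorem Mi_deriv {n : ℕ} {N : Matrix (Fin n) (Fin n) (MvPolynomial σ ℂ)}
    (hN : ∀ a b i, ∃ c : ℂ, pderiv i (N a b) = C c) (r : ℕ) (i : σ) (g : MvPolynomial σ ℂ)
    (hg : g ∈ Mi N (r + 1)) : pderiv i g ∈ Mi N r := by
  unfold Mi at hg
  induction hg using Submodule.span_induction with
  | mem x hx =>
    obtain ⟨⟨I, J⟩, rfl⟩ := hx
    show pderiv i (N.submatrix I J).det ∈ _
    rw [der_det_succ]
    refine Submodule.sum_mem _ fun b _ => Submodule.sum_mem _ fun a _ => ?_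
    obtain ⟨c, hc⟩ := hN (I a) (J b) i
    have h1 : (-1) ^ ((a : ℕ) + (b : ℕ)) * (pderiv i) (N.submatrix I J a b) *
        ((N.submatrix I J).submatrix a.succAbove b.succAbove).det =
        ((-1) ^ ((a : ℕ) + (b : ℕ)) * c) •
          (N.submatrix (I ∘ a.succAbove) (J ∘ b.succAbove)).det := by
      rw [Matrix.submatrix_apply, hc, Matrix.submatrix_submatrix, MvPolynomial.smul_eq_C_mul]
      simp
    rw [h1]
    exact Submodule.smul_mem _ _ (Submodule.subset_span ⟨(_, _), rfl⟩)
  | zero => simp
  | add x y _ _ hx hy => rw [map_add]; exact Submodule.add_mem _ hx hy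
  | smul a x _ hx => rw [Derivation.map_smul]; exact Submodule.smul_mem _ _ hx

theorem subst_det (n : ℕ) (A : Matrix (Fin n × Fin n) (Fin n × Fin n) ℂ) :
    subst A (detPoly n) =
      (Matrix.of fun i j => ∑ v, C (A (i, j) v) * X v :
        Matrix (Fin n) (Fin n) (MvPolynomial (Fin n × Fin n) ℂ)).det := by
  unfold subst detPoly
  rw [AlgHom.map_det]
  congr 1
  ext1 i j
  simp [Matrix.mvPolynomialX_apply]

end Minors

end PadDet
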