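import Pool.Agent.H.MP_d7db32_ag.A

/-!
# MP_d7db32_ag, B: the spaces of partial derivatives of a form in the closure of the orbit
-/

set_option autoImplicit false

namespace PadDet

open MvPolynomial Matrix

/-- The Zariski closure of a set of vectors: the common zeros of the polynomial functions
(sums of products of linear functionals and constants) that vanish on it. -/
def zariskiClosure {W : Type} [AddCommGroup W] [Module ℂ W] (S : Set W) : Set W :=
  {w | ∀ P ∈ Algebra.adjoin ℂ {φ : W → ℂ | ∃ ψ : W →ₗ[ℂ] ℂ, φ = ψ}, (∀ s ∈ S, P s = 0) → P w = 0}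

section Closure

variable {W W' : Type} [AddCommGroup W] [Module ℂ W] [AddCommGroup W'] [Module ℂ W']

theorem closure_functional {S : Set W} {w : W} (hw : w ∈ zariskiClosure S) (ψ : W →ₗ[ℂ] ℂ)
    (h : ∀ s ∈ S, ψ s = 0) : ψ w = 0 :=
  hw ψ (Algebra.subset_adjoin ⟨ψ, rfl⟩) h

theorem closure_linear {S : Set W} {w : W} (hw : w ∈ zariskiClosure S) (T : W →ₗ[ℂ] W')
    (h : ∀ s ∈ S, T s = 0) : T w = 0 := by
  rw [← Module.forall_dual_apply_eq_zero_iff ℂ]
  intro φ
  exact closure_functional hw (φ ∘ₗ T) fun s hs => by simp [h s hs]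

/-- The polynomial functions are pulled back to polynomial functions by linear maps. -/
theorem pull {P : W' → ℂ} (hP : P ∈ Algebra.adjoin ℂ {φ : W' → ℂ | ∃ ψ : W' →ₗ[ℂ] ℂ, φ = ψ})
    (T : W →ₗ[ℂ] W') :
    P ∘ T ∈ Algebra.adjoin ℂ {φ : W → ℂ | ∃ ψ : W →ₗ[ℂ] ℂ, φ = ψ} := by
  induction hP using Algebra.adjoin_induction with
  | mem x hx =>
    obtain ⟨ψ, rfl⟩ := hx
    exact Algebra.subset_adjoin ⟨ψ ∘ₗ T, rfl⟩
  | algebraMap r => exact Subalgebra.algebraMap_mem _ r
  | add x y _ _ hx hy => exact Subalgebra.add_mem _ hx hy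
  | mul x y _ _ hx hy => exact Subalgebra.mul_mem _ hx hy

theorem closure_map {S : Set W} {w : W} (hw : w ∈ zariskiClosure S) (T : W →ₗ[ℂ] W') :
    T w ∈ zariskiClosure (T '' S) := by
  intro P hP h
  exact hw _ (pull hP T) fun s hs => h _ ⟨s, hs, rfl⟩

/-- The closure of the image under an injective linear map. -/
theorem closure_image {S : Set W} {w : W'} (T : W →ₗ[ℂ] W') (hT : Function.Injective T)
    (hw : w ∈ zariskiClosure (T '' S)) : ∃ v ∈ zariskiClosure S, T v = w := by
  obtain ⟨T', hT'⟩ := T.exists_leftInverse_of_injective (LinearMap.ker_eq_bot.2 hT)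
  have hT'' : ∀ v, T' (T v) = v := fun v => LinearMap.congr_fun hT' v
  refine ⟨T' w, ?_, ?_⟩
  · have := closure_map hw T'
    rwa [← Set.image_comp, show (T' ∘ T : W → W) = id from funext hT'', Set.image_id] at this
  · have := closure_linear hw (T ∘ₗ T' - LinearMap.id) (by
      rintro _ ⟨s, _, rfl⟩
      simp [hT''])
    simpa [sub_eq_zero] using this

/-- A dimension bound for the span of linear images is a closed condition. -/
theorem closure_dep {S : Set W} {w : W} (hw : w ∈ zariskiClosure S) {r : ℕ}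
    (T : Fin r → W →ₗ[ℂ] W') (h : ∀ s ∈ S, ¬ LinearIndependent ℂ fun i => T i s) :
    ¬ LinearIndependent ℂ fun i => T i w := by
  intro hli
  -- dual functionals
  have hψ : ∃ ψ : Fin r → W' →ₗ[ℂ] ℂ, ∀ i j, ψ j (T i w) = if i = j then 1 else 0 := by
    have : ∀ j : Fin r, ∃ ψ : W' →ₗ[ℂ] ℂ, ∀ i, ψ (T i w) = if i = j then 1 else 0 := by
      intro j
      obtain ⟨g, hg⟩ := LinearMap.exists_extend ((Module.Basis.span hli).coord j)
      refine ⟨g, fun i => ?_⟩
      have h1 := LinearMap.congr_fun hg (Module.Basis.span hli i)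
      rw [Module.Basis.coord_apply, Module.Basis.repr_self] at h1
      simp only [LinearMap.coe_comp, Function.comp_apply, Submodule.coe_subtype,
        Module.Basis.span_apply] at h1
      rw [h1, Finsupp.single_apply]
    choose ψ hψ using this
    exact ⟨ψ, fun i j => hψ j i⟩
  obtain ⟨ψ, hψ⟩ := hψ
  have hmem : (fun v : W => (Matrix.of fun i j => ψ j (T i v) : Matrix (Fin r) (Fin r) ℂ).det) ∈
      Algebra.adjoin ℂ {φ : W → ℂ | ∃ ψ : W →ₗ[ℂ] ℂ, φ = ψ} := by
    have : (fun v : W => (Matrix.of fun i j => ψ j (T i v) : Matrix (Fin r) (Fin r) ℂ).det) =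
        ∑ π : Equiv.Perm (Fin r), ((Equiv.Perm.sign π : ℤ) : W → ℂ) *
          ∏ i, (fun v : W => (ψ i ∘ₗ T (π i)) v) := by
      funext v
      rw [Matrix.det_apply', Finset.sum_apply]
      refine Finset.sum_congr rfl fun π _ => ?_
      simp
    rw [this]
    refine Subalgebra.sum_mem _ fun π _ => Subalgebra.mul_mem _ ?_ ?_
    · exact intCast_mem _ _
    · exact Subalgebra.prod_mem _ fun i _ => Algebra.subset_adjoin ⟨_, rfl⟩
  have hz := hw _ hmem (fun s hs => by
    have hd := h s hs
    rw [Fintype.linearIndependent_iff] at hd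
    push Not at hd
    obtain ⟨c, hc, i, hi⟩ := hd
    show (Matrix.of fun i j => ψ j (T i s) : Matrix (Fin r) (Fin r) ℂ).det = 0
    rw [← Matrix.exists_vecMul_eq_zero_iff]
    refine ⟨c, fun h0 => hi (congrFun h0 i), ?_⟩
    funext j
    have := congrArg (ψ j) hc
    simpa [Matrix.vecMul, dotProduct] using this)
  have h1 : (Matrix.of fun i j => ψ j (T i w) : Matrix (Fin r) (Fin r) ℂ) = 1 := by
    ext i j
    rw [Matrix.of_apply, hψ, Matrix.one_apply]
  rw [h1, Matrix.det_one] at hz
  exact one_ne_zero hz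

end Closure

section PD

variable {σ : Type}

/-- Iterated partial derivatives. -/
noncomputable def iterD : List σ → (MvPolynomial σ ℂ →ₗ[ℂ] MvPolynomial σ ℂ)
  | [] => LinearMap.id
  | i :: w => (pderiv i).toLinearMap ∘ₗ iterD w

/-- The span of the `k`-th partial derivatives. -/
noncomputable def PD (k : ℕ) (f : MvPolynomial σ ℂ) : Submodule ℂ (MvPolynomial σ ℂ) :=
  Submodule.span ℂ (Set.range fun w : {w : List σ // w.length = k} => iterD w.1 f)

theorem PD_zero (f : MvPolynomial σ ℂ) : f ∈ PD 0 f :=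
  Submodule.subset_span ⟨⟨[], rfl⟩, rfl⟩

theorem PD_succ (k : ℕ) (f g : MvPolynomial σ ℂ) (hg : g ∈ PD k f) (i : σ) :
    pderiv i g ∈ PD (k + 1) f := by
  unfold PD at hg
  induction hg using Submodule.span_induction with
  | mem x hx =>
    obtain ⟨w, rfl⟩ := hx
    exact Submodule.subset_span ⟨⟨i :: w.1, by simp [w.2]⟩, rfl⟩
  | zero => simp
  | add x y _ _ hx hy => rw [map_add]; exact Submodule.add_mem _ hx hy
  | smul a x _ hx => rw [Derivation.map_smul]; exact Submodule.smul_mem _ _ hx

theorem iterD_homog {n : ℕ} {f : MvPolynomial σ ℂ} (hf : f.IsHomogeneous n) (w : List σ) :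
    (iterD w f).IsHomogeneous (n - w.length) := by
  induction w with
  | nil => simpa [iterD] using hf
  | cons i w ih =>
    have := ih.pderiv (i := i)
    simpa [iterD, Nat.sub_sub] using this

theorem PD_homog {n k : ℕ} {f : MvPolynomial σ ℂ} (hf : f.IsHomogeneous n) {g : MvPolynomial σ ℂ}
    (hg : g ∈ PD k f) : g.IsHomogeneous (n - k) := by
  rw [← mem_homogeneousSubmodule]
  revert hg
  suffices PD k f ≤ homogeneousSubmodule σ ℂ (n - k) from fun h => this h
  unfold PD
  rw [Submodule.span_le]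
  rintro _ ⟨w, rfl⟩
  have := iterD_homog hf w.1
  rw [w.2] at this
  exact this

/-- A spanning family of a space of dimension at most `N`. -/
theorem exists_family {W : Type} [AddCommGroup W] [Module ℂ W] (V : Set W) (N : ℕ)
    (h : ∀ v : Fin (N + 1) → W, (∀ i, v i ∈ V) → ¬ LinearIndependent ℂ v) :
    ∃ e : Fin N → W, Submodule.span ℂ (Set.range e) = Submodule.span ℂ V := by
  obtain ⟨b, hbV, hspan, hli⟩ := exists_linearIndependent ℂ V
  have hfin : b.encard ≤ N := by
    by_contra hcon
    push Not at hcon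
    have : ((N + 1 : ℕ) : ℕ∞) ≤ b.encard := by
      exact Order.add_one_le_of_lt hcon
    obtain ⟨t, htb, ht⟩ := Set.exists_subset_encard_eq this
    have htf : t.Finite := Set.finite_of_encard_eq_coe ht
    have hcard : htf.toFinset.card = N + 1 := by
      rw [htf.encard_eq_coe_toFinset_card] at ht
      exact_mod_cast ht
    let eq := (htf.toFinset.equivFinOfCardEq hcard).symm
    refine h (fun i => (eq i : W)) (fun i => ?_) ?_
    · exact hbV (htb (htf.mem_toFinset.1 (eq i).2))
    · have hinj : Function.Injective fun i => (⟨(eq i : W), htb (htf.mem_toFinset.1 (eq i).2)⟩ : b) := by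
        intro i j hij
        apply eq.injective
        apply Subtype.ext
        exact congrArg (fun x : b => (x : W)) hij
      exact hli.comp _ hinj
  have hbf : b.Finite := Set.finite_of_encard_le_coe hfin
  have hcard : hbf.toFinset.card ≤ N := by
    rw [hbf.encard_eq_coe_toFinset_card] at hfin
    exact_mod_cast hfin
  let eq := (hbf.toFinset.equivFin).symm
  refine ⟨fun i => if h : (i : ℕ) < hbf.toFinset.card then (eq ⟨i, h⟩ : W) else 0, ?_⟩
  rw [← hspan]
  apply le_antisymm
  · rw [Submodule.span_le]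
    rintro _ ⟨i, rfl⟩
    simp only
    split_ifs with h
    · exact Submodule.subset_span (hbf.mem_toFinset.1 (eq ⟨i, h⟩).2)
    · exact Submodule.zero_mem _
  · rw [Submodule.span_le]
    intro x hx
    apply Submodule.subset_span
    let i := eq.symm ⟨x, hbf.mem_toFinset.2 hx⟩
    refine ⟨⟨i, lt_of_lt_of_le i.2 hcard⟩, ?_⟩
    simp only [Fin.is_lt, dif_pos]
    have : eq ⟨(i : ℕ), i.2⟩ = ⟨x, hbf.mem_toFinset.2 hx⟩ := by
      simp [i]
    rw [this]

end PD

end PadDet
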