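import Pool.Agent.H.MP_d7db32_ag.B

/-!
# MP_d7db32_ag, C: the padded determinant of a homogeneous branching program
-/

set_option autoImplicit false

namespace PadDet

open MvPolynomial Matrix

section ABP

variable {Q : Type} [CommRing Q] {ι : Type} [Fintype ι] [DecidableEq ι]

theorem det_strict (l : Q) (U : Matrix ι ι Q) (b : ι → ℕ)
    (hU : ∀ v w, b w ≤ b v → U v w = 0) : (l • 1 - U).det = l ^ Fintype.card ι := by
  have hM : (l • (1 : Matrix ι ι Q) - U).BlockTriangular b := by
    intro i j hij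
    have hne : i ≠ j := by rintro rfl; exact lt_irrefl _ hij
    simp [hU i j hij.le, Matrix.one_apply_ne hne]
  rw [hM.det]
  have h1 : ∀ a ∈ Finset.univ.image b, ((l • (1 : Matrix ι ι Q) - U).toSquareBlock b a).det =
      l ^ Fintype.card {i // b i = a} := by
    intro a _
    have : (l • (1 : Matrix ι ι Q) - U).toSquareBlock b a = l • (1 : Matrix {i // b i = a} _ Q) := by
      ext i j
      rw [Matrix.toSquareBlock_def, Matrix.of_apply, Matrix.sub_apply,
        hU i j (by rw [i.2, j.2]), sub_zero, Matrix.smul_apply, Matrix.smul_apply,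
        Matrix.one_apply, Matrix.one_apply]
      simp [Subtype.ext_iff]
    rw [this, Matrix.det_smul, Matrix.det_one, mul_one]
  rw [Finset.prod_congr rfl h1, Finset.prod_pow_eq_pow_sum]
  congr 1
  rw [← Finset.card_univ, Finset.card_eq_sum_card_image b]
  refine Finset.sum_congr rfl fun a _ => ?_
  rw [Fintype.card_subtype]

theorem bordered [IsDomain Q] (l : Q) (hl : l ≠ 0) (N : ℕ) (hN : N ≤ Fintype.card ι)
    (U : Matrix ι ι Q) (a F : Q) (r c Z : ι → Q)
    (hdet : (l • 1 - U).det = l ^ Fintype.card ι)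
    (h0 : a * l ^ N + ∑ v, r v * Z v = F)
    (hi : ∀ v, c v * l ^ N + (l * Z v - ∑ w, U v w * Z w) = 0) :
    (fromBlocks (of fun _ _ : Unit => a) (of fun _ v => r v) (of fun v _ => c v)
      (l • 1 - U)).det = l ^ (Fintype.card ι - N) * F := by
  set M : Matrix (Unit ⊕ ι) (Unit ⊕ ι) Q :=
    fromBlocks (of fun _ _ : Unit => a) (of fun _ v => r v) (of fun v _ => c v) (l • 1 - U) with hMd
  let Zf : Unit ⊕ ι → Q := Sum.elim (fun _ => l ^ N) Z
  have hMZ : M *ᵥ Zf = Sum.elim (fun _ => F) 0 := by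
    funext x
    rcases x with x | v
    · rw [hMd, Matrix.mulVec, dotProduct, Fintype.sum_sum_type, Fintype.sum_unique]
      simp only [Zf, fromBlocks_apply₁₁, fromBlocks_apply₁₂, of_apply, Sum.elim_inl, Sum.elim_inr]
      exact h0
    · rw [hMd, Matrix.mulVec, dotProduct, Fintype.sum_sum_type, Fintype.sum_unique]
      simp only [Zf, fromBlocks_apply₂₁, fromBlocks_apply₂₂, of_apply, Sum.elim_inl, Sum.elim_inr]
      have hs : ∑ x, (l • (1 : Matrix ι ι Q) - U) v x * Z x = l * Z v - ∑ w, U v w * Z w := by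
        simp only [Matrix.sub_apply, Matrix.smul_apply, sub_mul, Finset.sum_sub_distrib,
          Matrix.one_apply, smul_eq_mul, mul_ite, mul_one, mul_zero, ite_mul, zero_mul,
          Finset.sum_ite_eq, Finset.mem_univ, if_true]
      rw [hs]
      exact hi v
  have hadj : adjugate M (Sum.inl ()) (Sum.inl ()) = l ^ Fintype.card ι := by
    rw [adjugate_apply]
    have : M.updateRow (Sum.inl ()) (Pi.single (Sum.inl ()) 1) =
        fromBlocks 1 0 (of fun v _ => c v) (l • 1 - U) := by
      ext x y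
      rcases x with x | v
      · rcases y with y | w <;> simp [Matrix.updateRow_apply]
      · rcases y with y | w <;> simp [Matrix.updateRow_apply, hMd]
    rw [this, det_fromBlocks_zero₁₂, det_one, one_mul, hdet]
  have hkey : M.det * l ^ N = l ^ Fintype.card ι * F := by
    have h1 : (adjugate M * M) *ᵥ Zf = adjugate M *ᵥ (M *ᵥ Zf) := (Matrix.mulVec_mulVec _ _ _).symm
    rw [adjugate_mul, hMZ] at h1
    have h2 := congrFun h1 (Sum.inl ())
    rw [Matrix.smul_mulVec, Matrix.one_mulVec, Matrix.mulVec, dotProduct,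
      Fintype.sum_sum_type, Fintype.sum_unique] at h2
    simp only [Zf, Pi.smul_apply, Sum.elim_inl, Sum.elim_inr, Pi.zero_apply, mul_zero,
      Finset.sum_const_zero, add_zero, smul_eq_mul] at h2
    rw [h2]
    congr 1
  have hc : l ^ N ≠ 0 := pow_ne_zero _ hl
  apply mul_right_cancel₀ hc
  rw [hkey]
  have : l ^ Fintype.card ι = l ^ (Fintype.card ι - N) * l ^ N := by
    rw [← pow_add, Nat.sub_add_cancel hN]
  rw [this]; ring

end ABP

section Steps

variable {σ : Type} [Fintype σ]

/-- The orbit of the determinant. -/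
def orbit (n : ℕ) : Set (MvPolynomial (Fin n × Fin n) ℂ) :=
  {f | ∃ A : Matrix (Fin n × Fin n) (Fin n × Fin n) ℂ, IsUnit A.det ∧ f = subst A (detPoly n)}

theorem PD_orbit {n : ℕ} (A : Matrix (Fin n × Fin n) (Fin n × Fin n) ℂ) (w : List (Fin n × Fin n))
    (hw : w.length ≤ n) : iterD w (subst A (detPoly n)) ∈
      Mi (Matrix.of fun i j => ∑ v, C (A (i, j) v) * X v :
        Matrix (Fin n) (Fin n) (MvPolynomial (Fin n × Fin n) ℂ)) (n - w.length) := by
  induction w with
  | nil =>
    rw [subst_det]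
    exact Submodule.subset_span ⟨(id, id), rfl⟩
  | cons i w ih =>
    have hw' : w.length + 1 ≤ n := by simpa using hw
    have h1 := ih (by omega)
    rw [show n - w.length = (n - (i :: w).length) + 1 by simp; omega] at h1
    refine Mi_deriv ?_ _ i _ h1
    intro a b j
    refine ⟨A (a, b) j, ?_⟩
    classical
    rw [Matrix.of_apply, map_sum, Finset.sum_eq_single j]
    · simp
    · intro v _ hv
      simp [pderiv_X_of_ne hv]
    · simp

theorem orbit_homog {n : ℕ} {f : MvPolynomial (Fin n × Fin n) ℂ} (hf : f ∈ orbit n) :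
    f.IsHomogeneous n := by
  obtain ⟨A, _, rfl⟩ := hf
  rw [subst_det, Matrix.det_apply']
  refine MvPolynomial.IsHomogeneous.sum _ _ _ fun π _ => ?_
  have h1 : (∏ i, (Matrix.of fun i j => ∑ v, C (A (i, j) v) * X v :
      Matrix (Fin n) (Fin n) (MvPolynomial (Fin n × Fin n) ℂ)) (π i) i).IsHomogeneous n := by
    have := MvPolynomial.IsHomogeneous.prod Finset.univ (fun i => (Matrix.of fun i j =>
      ∑ v, C (A (i, j) v) * X v :
      Matrix (Fin n) (Fin n) (MvPolynomial (Fin n × Fin n) ℂ)) (π i) i) (fun _ => 1)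
      (fun i _ => by
        rw [Matrix.of_apply]
        exact MvPolynomial.IsHomogeneous.sum _ _ _ fun v _ => by
          simpa using (isHomogeneous_C (Fin n × Fin n) (A (π i, i) v)).mul (isHomogeneous_X ℂ v))
    simpa using this
  have h2 := (isHomogeneous_C (Fin n × Fin n) (((Equiv.Perm.sign π : ℤ) : ℂ))).mul h1
  simpa using h2

theorem closure_homog {n : ℕ} {f : MvPolynomial (Fin n × Fin n) ℂ}
    (hf : f ∈ zariskiClosure (orbit n)) : f.IsHomogeneous n := by
  intro α hα
  by_contra hne
  apply hα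
  refine closure_functional hf (MvPolynomial.lcoeff ℂ α) fun s hs => ?_
  by_contra h
  exact hne (orbit_homog hs h)

theorem family_exists {n : ℕ} {f : MvPolynomial (Fin n × Fin n) ℂ}
    (hf : f ∈ zariskiClosure (orbit n)) (k : ℕ) (hk : k ≤ n) :
    ∃ e : Fin (n.choose k ^ 2) → MvPolynomial (Fin n × Fin n) ℂ,
      Submodule.span ℂ (Set.range e) = PD k f := by
  unfold PD
  refine exists_family _ _ fun v hv => ?_
  choose w hw using hv
  have : v = fun i => iterD (w i).1 f := funext fun i => (hw i).symm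
  rw [this]
  refine closure_dep hf (fun i => iterD (w i).1) ?_
  rintro s ⟨A, _, rfl⟩ hli
  obtain ⟨e, he⟩ := Mi_le (Matrix.of fun i j => ∑ v, C (A (i, j) v) * X v :
        Matrix (Fin n) (Fin n) (MvPolynomial (Fin n × Fin n) ℂ)) (n - k)
  have hmem : ∀ i, iterD (w i).1 (subst A (detPoly n)) ∈ Submodule.span ℂ (Set.range e) := by
    intro i
    apply he
    have := PD_orbit A (w i).1 (by rw [(w i).2]; exact hk)
    rwa [(w i).2] at this
  have hcard := linearIndependent_le_span' _ hli (Set.range e) (by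
    rintro _ ⟨i, rfl⟩
    exact hmem i)
  have h2 : Fintype.card (Set.range e) ≤ n.choose (n - k) ^ 2 := by
    have := Fintype.card_range_le e
    simpa using this
  have h3 : n.choose (n - k) ^ 2 = n.choose k ^ 2 := by rw [Nat.choose_symm hk]
  have h4 : n.choose k ^ 2 + 1 ≤ Fintype.card (Set.range e) := by
    have := hcard
    rw [Cardinal.mk_fin] at this
    exact_mod_cast this
  omega

/-- Euler's formula: one layer of the branching program. -/
theorem layer {n k N : ℕ} {f : MvPolynomial σ ℂ} (hf : f.IsHomogeneous n) (hk : k < n)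
    {e : Fin N → MvPolynomial σ ℂ} (he : Submodule.span ℂ (Set.range e) = PD (k + 1) f)
    {g : MvPolynomial σ ℂ} (hg : g ∈ PD k f) :
    ∃ L : Fin N → MvPolynomial σ ℂ, (∀ b, (L b).IsHomogeneous 1) ∧ g = ∑ b, L b * e b := by
  have h1 : ∀ i, ∃ c : Fin N → ℂ, ∑ b, c b • e b = pderiv i g := by
    intro i
    have := PD_succ k f g hg i
    rw [← he] at this
    exact (Submodule.mem_span_range_iff_exists_fun ℂ).1 this
  choose c hc using h1
  refine ⟨fun b => C (((n - k : ℕ) : ℂ)⁻¹) * ∑ i, C (c i b) * X i, fun b => ?_, ?_⟩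
  · have h2 : (∑ i, C (c i b) * X i : MvPolynomial σ ℂ).IsHomogeneous 1 :=
      MvPolynomial.IsHomogeneous.sum _ _ _ fun v _ => by
        simpa using (isHomogeneous_C σ (c v b)).mul (isHomogeneous_X ℂ v)
    simpa using (isHomogeneous_C σ (((n - k : ℕ) : ℂ)⁻¹)).mul h2
  · have hE := (PD_homog hf hg).sum_X_mul_pderiv
    have hne : ((n - k : ℕ) : ℂ) ≠ 0 := by
      exact_mod_cast (by omega : n - k ≠ 0)
    have h3 : g = C (((n - k : ℕ) : ℂ)⁻¹) * ∑ i, X i * pderiv i g := by
      rw [hE, nsmul_eq_mul, ← mul_assoc]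
      have : (C (((n - k : ℕ) : ℂ)⁻¹) * ((n - k : ℕ) : MvPolynomial σ ℂ)) = 1 := by
        rw [← map_natCast C, ← C_mul, inv_mul_cancel₀ hne, C_1]
      rw [this, one_mul]
    rw [h3]
    simp_rw [← hc, mul_assoc, ← Finset.mul_sum, Finset.sum_mul, MvPolynomial.smul_eq_C_mul,
      Finset.mul_sum]
    rw [Finset.sum_comm]
    refine Finset.sum_congr rfl fun i _ => Finset.sum_congr rfl fun b _ => ?_
    ring

end Steps

end PadDet
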