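import Pool.Agent.H.MP_d7db32_ag.C

/-!
# MP_d7db32_ag, D: assembling the branching program
-/

set_option autoImplicit false

namespace PadDet

open MvPolynomial Matrix

theorem sum_layers (n : ℕ) :
    ∑ k : Fin n, ((n + 1).choose ((k : ℕ) + 1)) ^ 2 + 2 = (2 * (n + 1)).choose (n + 1) := by
  rw [← Nat.sum_range_choose_sq, Finset.sum_range_succ, Finset.sum_range_succ',
    Fin.sum_univ_eq_sum_range (fun k => ((n + 1).choose (k + 1)) ^ 2)]
  simp

/-- The families of the layers, indexed by natural numbers. -/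
theorem program {n : ℕ} {f : MvPolynomial (Fin n × Fin n) ℂ}
    (hf : f ∈ zariskiClosure (orbit n)) :
    ∃ (E : ℕ → ℕ → MvPolynomial (Fin n × Fin n) ℂ) (L : ℕ → ℕ → ℕ → MvPolynomial (Fin n × Fin n) ℂ)
      (L0 : ℕ → MvPolynomial (Fin n × Fin n) ℂ),
      (∀ k a, k ≤ n → (E k a).IsHomogeneous (n - k)) ∧
      (∀ k a b, (L k a b).IsHomogeneous 1) ∧ (∀ b, (L0 b).IsHomogeneous 1) ∧
      (∀ k, k < n → ∀ a, E k a = ∑ b ∈ Finset.range (n.choose (k + 1) ^ 2), L k a b * E (k + 1) b) ∧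
      (0 < n → f = ∑ b ∈ Finset.range (n.choose 1 ^ 2), L0 b * E 1 b) := by
  have hfh := closure_homog hf
  have h1 : ∀ k, ∃ E : ℕ → MvPolynomial (Fin n × Fin n) ℂ, (∀ a, E a ∈ PD k f) ∧
      (k < n → ∀ j, k = j + 1 → ∀ g ∈ PD j f, ∃ L : ℕ → MvPolynomial (Fin n × Fin n) ℂ,
        (∀ b, (L b).IsHomogeneous 1) ∧ g = ∑ b ∈ Finset.range (n.choose k ^ 2), L b * E b) ∧
      (k = n → ∀ j, k = j + 1 → ∀ g ∈ PD j f, ∃ L : ℕ → MvPolynomial (Fin n × Fin n) ℂ,
        (∀ b, (L b).IsHomogeneous 1) ∧ g = ∑ b ∈ Finset.range (n.choose k ^ 2), L b * E b) := by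
    intro k
    by_cases hk : k ≤ n
    · obtain ⟨e, he⟩ := family_exists hf k hk
      have main : ∀ j, k = j + 1 → ∀ g ∈ PD j f, ∃ L : ℕ → MvPolynomial (Fin n × Fin n) ℂ,
        (∀ b, (L b).IsHomogeneous 1) ∧ g = ∑ b ∈ Finset.range (n.choose k ^ 2), L b *
          (if h : b < n.choose k ^ 2 then e ⟨b, h⟩ else 0) := by
        rintro j rfl g hg
        obtain ⟨L, hL1, hL2⟩ := layer hfh (by omega) he hg
        refine ⟨fun b => if h : b < n.choose (j + 1) ^ 2 then L ⟨b, h⟩ else 0, fun b => ?_, ?_⟩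
        · simp only
          split_ifs with h
          · exact hL1 _
          · exact isHomogeneous_zero _ _ _
        · rw [hL2, ← Fin.sum_univ_eq_sum_range (fun b =>
            (if h : b < n.choose (j + 1) ^ 2 then L ⟨b, h⟩ else 0) *
            (if h : b < n.choose (j + 1) ^ 2 then e ⟨b, h⟩ else 0))]
          refine Finset.sum_congr rfl fun b _ => ?_
          simp
      refine ⟨fun b => if h : b < n.choose k ^ 2 then e ⟨b, h⟩ else 0, fun a => ?_,
        fun _ => main, fun _ => main⟩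
      simp only
      split_ifs with h
      · rw [← he]; exact Submodule.subset_span ⟨_, rfl⟩
      · exact Submodule.zero_mem _
    · exact ⟨fun _ => 0, fun _ => Submodule.zero_mem _, fun h => absurd h.le hk,
        fun h => absurd h.le hk⟩
  choose E hE1 hE2 hE3 using h1
  have hE : ∀ j, j < n → ∀ g ∈ PD j f, ∃ L : ℕ → MvPolynomial (Fin n × Fin n) ℂ,
        (∀ b, (L b).IsHomogeneous 1) ∧
        g = ∑ b ∈ Finset.range (n.choose (j + 1) ^ 2), L b * E (j + 1) b := by
    intro j hj g hg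
    rcases Nat.lt_or_ge (j + 1) n with h | h
    · exact hE2 (j + 1) h j rfl g hg
    · exact hE3 (j + 1) (by omega) j rfl g hg
  have h2 : ∀ k a, ∃ L : ℕ → MvPolynomial (Fin n × Fin n) ℂ, (∀ b, (L b).IsHomogeneous 1) ∧
      (k < n → E k a = ∑ b ∈ Finset.range (n.choose (k + 1) ^ 2), L b * E (k + 1) b) := by
    intro k a
    by_cases hk : k < n
    · obtain ⟨L, h1, h2⟩ := hE k hk _ (hE1 k a)
      exact ⟨L, h1, fun _ => h2⟩
    · exact ⟨fun _ => 0, fun _ => isHomogeneous_zero _ _ _, fun h => absurd h hk⟩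
  choose L hL1 hL2 using h2
  have h3 : ∃ L : ℕ → MvPolynomial (Fin n × Fin n) ℂ, (∀ b, (L b).IsHomogeneous 1) ∧
      (0 < n → f = ∑ b ∈ Finset.range (n.choose 1 ^ 2), L b * E 1 b) := by
    by_cases hk : 0 < n
    · obtain ⟨L, h1, h2⟩ := hE 0 hk _ (PD_zero f)
      exact ⟨L, h1, fun _ => h2⟩
    · exact ⟨fun _ => 0, fun _ => isHomogeneous_zero _ _ _, fun h => absurd h hk⟩
  obtain ⟨L0, h01, h02⟩ := h3
  exact ⟨E, L, L0, fun k a hk => PD_homog hfh (hE1 k a), hL1, h01, fun k hk a => hL2 k a hk, h02⟩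

/-- The padded form as a determinant of linear forms. -/
theorem core {n m : ℕ} (hn : 1 ≤ n) (hm : (2 * n).choose n - 1 ≤ m) {τ : Type} [Fintype τ]
    (e : Fin n × Fin n → τ) (l : MvPolynomial τ ℂ) (hl1 : l.IsHomogeneous 1) (hl : l ≠ 0)
    {f : MvPolynomial (Fin n × Fin n) ℂ} (hf : f ∈ zariskiClosure (orbit n)) :
    ∃ M : Matrix (Fin m) (Fin m) (MvPolynomial τ ℂ), (∀ i j, (M i j).IsHomogeneous 1) ∧
      M.det = l ^ (m - n) * rename e f := by
  obtain ⟨N, rfl⟩ : ∃ N, n = N + 1 := ⟨n - 1, by omega⟩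
  obtain ⟨E, L, L0, hE, hL, hL0, hEL, hf0⟩ := program hf
  have hsum := sum_layers N
  let c : ℕ → ℕ := fun k => (N + 1).choose k ^ 2
  let t := m - ((2 * (N + 1)).choose (N + 1) - 1)
  let ι := (Σ k : Fin N, Fin (c ((k : ℕ) + 1))) ⊕ Fin t
  have hcard : Fintype.card ι + 1 = m := by
    rw [Fintype.card_sum, Fintype.card_sigma]
    simp only [Fintype.card_fin]
    show ∑ k : Fin N, ((N + 1).choose ((k : ℕ) + 1)) ^ 2 + (m - ((2 * (N + 1)).choose (N + 1) - 1)) + 1 = m
    omega
  have hle : N + 1 ≤ m := by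
    have h1 : (N + 1) + 1 ≤ (2 * (N + 1)).choose (N + 1) := by
      rw [← Nat.sum_range_choose_sq]
      calc (N + 1) + 1 = ∑ _k ∈ Finset.range (N + 1 + 1), 1 := by simp
        _ ≤ _ := Finset.sum_le_sum fun k hk => by
          have : 0 < (N + 1).choose k := Nat.choose_pos (by simpa [Nat.lt_succ_iff] using hk)
          exact Nat.one_le_pow _ _ this
    omega
  let ρ : MvPolynomial (Fin (N + 1) × Fin (N + 1)) ℂ →ₐ[ℂ] MvPolynomial τ ℂ := rename e
  have hρ : ∀ {g : MvPolynomial (Fin (N + 1) × Fin (N + 1)) ℂ} {d : ℕ}, g.IsHomogeneous d →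
      (ρ g).IsHomogeneous d := fun h => h.rename_isHomogeneous
  let U : Matrix ι ι (MvPolynomial τ ℂ) := Matrix.of fun v w =>
    match v, w with
    | Sum.inl ⟨k, a⟩, Sum.inl ⟨k', a'⟩ => if (k' : ℕ) = k + 1 then ρ (L (k + 1) a a') else 0
    | _, _ => 0
  let a0 : MvPolynomial τ ℂ := if N = 0 then ρ f else 0
  let r : ι → MvPolynomial τ ℂ := fun v =>
    match v with
    | Sum.inl ⟨k, b⟩ => if (k : ℕ) = 0 then ρ (L0 b) else 0
    | _ => 0
  let cc : ι → MvPolynomial τ ℂ := fun v =>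
    match v with
    | Sum.inl ⟨k, b⟩ => if (k : ℕ) + 1 = N then - ρ (E (k + 1) b) else 0
    | _ => 0
  let Z : ι → MvPolynomial τ ℂ := fun v =>
    match v with
    | Sum.inl ⟨k, b⟩ => l ^ (k : ℕ) * ρ (E (k + 1) b)
    | _ => 0
  have hdet : (l • 1 - U).det = l ^ Fintype.card ι := by
    refine det_strict l U (fun v => match v with | Sum.inl ⟨k, _⟩ => (k : ℕ) | Sum.inr _ => 0) ?_
    rintro (⟨k, a⟩ | v) (⟨k', a'⟩ | w) h
    · simp only at h
      show (if (k' : ℕ) = k + 1 then ρ (L (k + 1) a a') else 0) = 0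
      rw [if_neg (by omega)]
    · rfl
    · rfl
    · rfl
  have h0 : a0 * l ^ N + ∑ v, r v * Z v = ρ f := by
    rw [Fintype.sum_sum_type, Fintype.sum_sigma]
    have hz : ∑ x : Fin t, r (Sum.inr x) * Z (Sum.inr x) = 0 :=
      Finset.sum_eq_zero fun x _ => zero_mul _
    rw [hz, add_zero]
    by_cases hN : N = 0
    · subst hN
      simp [a0]
    · have h1 : a0 = 0 := if_neg hN
      rw [h1, zero_mul, zero_add, Finset.sum_eq_single (⟨0, by omega⟩ : Fin N)]
      · have h2 : ∀ b : Fin (c ((0 : ℕ) + 1)), r (Sum.inl ⟨⟨0, by omega⟩, b⟩) *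
            Z (Sum.inl ⟨⟨0, by omega⟩, b⟩) = ρ (L0 b * E 1 b) := by
          intro b
          show (if (0 : ℕ) = 0 then ρ (L0 b) else 0) * (l ^ 0 * ρ (E (0 + 1) b)) = _
          rw [if_pos rfl, pow_zero, one_mul, map_mul]
        rw [Finset.sum_congr rfl fun b _ => h2 b, ← map_sum,
          Fin.sum_univ_eq_sum_range (fun b => L0 b * E 1 b), ← hf0 (by omega)]
      · intro k _ hk
        refine Finset.sum_eq_zero fun b _ => ?_
        show (if (k : ℕ) = 0 then ρ (L0 b) else 0) * _ = 0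
        rw [if_neg (fun h => hk (Fin.ext h)), zero_mul]
      · intro h; exact absurd (Finset.mem_univ _) h
  have hi : ∀ v, cc v * l ^ N + (l * Z v - ∑ w, U v w * Z w) = 0 := by
    rintro (⟨k, a⟩ | v)
    · have hs : ∑ w, U (Sum.inl ⟨k, a⟩) w * Z w =
          if (k : ℕ) + 1 < N then l ^ ((k : ℕ) + 1) * ρ (E (k + 1) a) else 0 := by
        rw [Fintype.sum_sum_type, Fintype.sum_sigma]
        have hz : ∑ x : Fin t, U (Sum.inl ⟨k, a⟩) (Sum.inr x) * Z (Sum.inr x) = 0 :=
          Finset.sum_eq_zero fun x _ => zero_mul _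
        rw [hz, add_zero]
        split_ifs with hk
        · rw [Finset.sum_eq_single (⟨(k : ℕ) + 1, hk⟩ : Fin N)]
          · have h2 : ∀ b : Fin (c ((k : ℕ) + 1 + 1)), U (Sum.inl ⟨k, a⟩)
                (Sum.inl ⟨⟨(k : ℕ) + 1, hk⟩, b⟩) * Z (Sum.inl ⟨⟨(k : ℕ) + 1, hk⟩, b⟩) =
                l ^ ((k : ℕ) + 1) * ρ (L (k + 1) a b * E (k + 1 + 1) b) := by
              intro b
              show (if (k : ℕ) + 1 = k + 1 then ρ (L (k + 1) a b) else 0) *
                (l ^ ((k : ℕ) + 1) * ρ (E (k + 1 + 1) b)) = _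
              rw [if_pos rfl, map_mul]; ring
            rw [Finset.sum_congr rfl fun b _ => h2 b, ← Finset.mul_sum, ← map_sum,
              Fin.sum_univ_eq_sum_range (fun b => L (k + 1) a b * E (k + 1 + 1) b),
              ← hEL (k + 1) (by omega)]
          · intro k' _ hk'
            refine Finset.sum_eq_zero fun b _ => ?_
            show (if (k' : ℕ) = k + 1 then ρ (L (k + 1) a b) else 0) * _ = 0
            rw [if_neg (fun h => hk' (Fin.ext h)), zero_mul]
          · intro h; exact absurd (Finset.mem_univ _) h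
        · refine Finset.sum_eq_zero fun k' _ => Finset.sum_eq_zero fun b _ => ?_
          show (if (k' : ℕ) = k + 1 then ρ (L (k + 1) a b) else 0) * _ = 0
          rw [if_neg (fun h => hk (by rw [← h]; exact k'.2)), zero_mul]
      rw [hs]
      show (if (k : ℕ) + 1 = N then - ρ (E (k + 1) a) else 0) * l ^ N +
        (l * (l ^ (k : ℕ) * ρ (E (k + 1) a)) - _) = 0
      by_cases hk : (k : ℕ) + 1 = N
      · have hl : l ^ N = l ^ ((k : ℕ) + 1) := by rw [hk]
        rw [if_pos hk, if_neg (by omega), hl]; ring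
      · rw [if_neg hk, if_pos (by omega)]; ring
    · have hs : ∑ w, U (Sum.inr v) w * Z w = 0 := Finset.sum_eq_zero fun w _ => by
        show (0 : MvPolynomial τ ℂ) * _ = 0
        exact zero_mul _
      rw [hs]
      show (0 : MvPolynomial τ ℂ) * _ + (l * 0 - 0) = 0
      ring
  have hb := bordered l hl N (by omega) U a0 (ρ f) r cc Z hdet h0 hi
  have hcard' : Fintype.card (Unit ⊕ ι) = m := by
    rw [Fintype.card_sum, Fintype.card_unit]; omega
  let eq := (Fintype.equivFinOfCardEq hcard').symm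
  refine ⟨(fromBlocks (of fun _ _ : Unit => a0) (of fun _ v => r v) (of fun v _ => cc v)
      (l • 1 - U)).submatrix eq eq, ?_, ?_⟩
  · have hall : ∀ x y, ((fromBlocks (of fun _ _ : Unit => a0) (of fun _ v => r v)
        (of fun v _ => cc v) (l • 1 - U)) x y).IsHomogeneous 1 := by
      rintro (x | ⟨k, a⟩ | v) (y | ⟨k', a'⟩ | w)
      · show (if N = 0 then ρ f else 0 : MvPolynomial τ ℂ).IsHomogeneous 1
        split_ifs with hN
        · subst hN; exact hρ (closure_homog hf)
        · exact isHomogeneous_zero _ _ _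
      · show (if (k' : ℕ) = 0 then ρ (L0 a') else 0 : MvPolynomial τ ℂ).IsHomogeneous 1
        split_ifs
        · exact hρ (hL0 _)
        · exact isHomogeneous_zero _ _ _
      · exact isHomogeneous_zero _ _ _
      · show (if (k : ℕ) + 1 = N then - ρ (E (k + 1) a) else 0 : MvPolynomial τ ℂ).IsHomogeneous 1
        split_ifs with hk
        · have h1 := hρ (hE (k + 1) a (by omega))
          rw [show N + 1 - ((k : ℕ) + 1) = 1 by omega] at h1
          exact h1.neg
        · exact isHomogeneous_zero _ _ _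
      · show ((l • (1 : Matrix ι ι (MvPolynomial τ ℂ))) (Sum.inl ⟨k, a⟩) (Sum.inl ⟨k', a'⟩) -
          (if (k' : ℕ) = k + 1 then ρ (L (k + 1) a a') else 0)).IsHomogeneous 1
        refine IsHomogeneous.sub ?_ ?_
        · rw [Matrix.smul_apply, Matrix.one_apply]
          split_ifs
          · simpa using hl1
          · simpa using isHomogeneous_zero _ _ _
        · split_ifs
          · exact hρ (hL _ _ _)
          · exact isHomogeneous_zero _ _ _
      · show ((l • (1 : Matrix ι ι (MvPolynomial τ ℂ))) (Sum.inl ⟨k, a⟩) (Sum.inr w) -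
          0).IsHomogeneous 1
        rw [Matrix.smul_apply, Matrix.one_apply, if_neg (by simp)]
        simpa using isHomogeneous_zero _ _ _
      · exact isHomogeneous_zero _ _ _
      · show ((l • (1 : Matrix ι ι (MvPolynomial τ ℂ))) (Sum.inr v) (Sum.inl ⟨k', a'⟩) -
          0).IsHomogeneous 1
        rw [Matrix.smul_apply, Matrix.one_apply, if_neg (by simp)]
        simpa using isHomogeneous_zero _ _ _
      · show ((l • (1 : Matrix ι ι (MvPolynomial τ ℂ))) (Sum.inr v) (Sum.inr w) -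
          0).IsHomogeneous 1
        rw [sub_zero, Matrix.smul_apply, Matrix.one_apply]
        split_ifs
        · simpa using hl1
        · simpa using isHomogeneous_zero _ _ _
    intro i j
    exact hall _ _
  · rw [Matrix.det_submatrix_equiv_self, hb]
    have : Fintype.card ι - N = m - (N + 1) := by omega
    rw [this]

theorem linear_eq {τ : Type} [Fintype τ] {φ : MvPolynomial τ ℂ} (h : φ.IsHomogeneous 1) :
    φ = ∑ v, C (coeff 0 (pderiv v φ)) * X v := by
  have h1 := h.sum_X_mul_pderiv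
  rw [one_smul] at h1
  conv_lhs => rw [← h1]
  refine Finset.sum_congr rfl fun v _ => ?_
  have h2 : (pderiv v φ).IsHomogeneous 0 := h.pderiv
  rw [mul_comm]
  congr 1
  exact totalDegree_eq_zero_iff_eq_C.1 (Nat.le_zero.1 h2.totalDegree_le)

theorem to_subst {m : ℕ} (M : Matrix (Fin m) (Fin m) (MvPolynomial (Fin m × Fin m) ℂ))
    (hM : ∀ i j, (M i j).IsHomogeneous 1) : ∃ A, M.det = subst A (detPoly m) := by
  refine ⟨fun p v => coeff 0 (pderiv v (M p.1 p.2)), ?_⟩
  rw [subst_det]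
  congr 1
  ext1 i j
  exact linear_eq (hM i j)

end PadDet
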