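import Pool.Agent.H.MP_d7db32_ag.C

/-!
# MP_d7db32_ag, E: first order terms of determinants, the trace form, limits of curves
-/

set_option autoImplicit false

namespace PadDet

open Matrix

/-- The coefficient of `t` in `det (A + t Y)`. -/
theorem coeff_one_det {R : Type} [CommRing R] {r : ℕ} (A Y : Matrix (Fin r) (Fin r) R) :
    ((A.map Polynomial.C + (Polynomial.X : Polynomial R) • Y.map Polynomial.C).det).coeff 1 =
      (A.adjugate * Y).trace := by
  set N := A.map Polynomial.C + (Polynomial.X : Polynomial R) • Y.map Polynomial.C with hN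
  have h1 := der_det (Polynomial.derivative' : Derivation R (Polynomial R) (Polynomial R)) N
  have h2 : N.det.coeff 1 = (Polynomial.derivative N.det).eval 0 := by
    rw [← Polynomial.coeff_zero_eq_eval_zero, Polynomial.coeff_derivative]
    simp
  have h3 : (Polynomial.derivative' : Derivation R (Polynomial R) (Polynomial R)) N.det =
    Polynomial.derivative N.det := rfl
  rw [h2, ← h3, h1, Polynomial.eval_finsetSum, Matrix.trace]
  refine Finset.sum_congr rfl fun i _ => ?_
  have h4 : ∀ M : Matrix (Fin r) (Fin r) (Polynomial R), M.det.eval 0 =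
      (M.map (Polynomial.eval 0)).det := by
    intro M
    have := (Polynomial.evalRingHom (0 : R)).map_det M
    simpa using this
  rw [h4, Matrix.diag_apply]
  have h5 : (N.updateCol i fun a => (Polynomial.derivative' :
      Derivation R (Polynomial R) (Polynomial R)) (N a i)).map (Polynomial.eval 0) =
      A.updateCol i (fun a => Y a i) := by
    ext a b
    rw [Matrix.map_apply, Matrix.updateCol_apply, Matrix.updateCol_apply]
    split_ifs with h
    · show (Polynomial.derivative (N a i)).eval 0 = _
      rw [hN]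
      simp
    · rw [hN]; simp
  rw [h5, ← Matrix.cramer_apply, Matrix.cramer_eq_adjugate_mulVec]
  rfl

theorem trace_of_const {m : ℕ} (N X : Matrix (Fin m) (Fin m) ℂ)
    (h : ∀ s : ℂ, (N + s • X).det = N.det) : (N.adjugate * X).trace = 0 := by
  rw [← coeff_one_det]
  have h1 : (N.map Polynomial.C + (Polynomial.X : Polynomial ℂ) • X.map Polynomial.C).det =
      Polynomial.C N.det := by
    refine Polynomial.funext fun s => ?_
    have := (Polynomial.evalRingHom s).map_det
      (N.map Polynomial.C + (Polynomial.X : Polynomial ℂ) • X.map Polynomial.C)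
    rw [Polynomial.coe_evalRingHom] at this
    rw [this, Polynomial.eval_C, ← h s]
    congr 1
    ext i j
    simp
    exact mul_comm _ _
  rw [h1, Polynomial.coeff_C, if_neg one_ne_zero]

theorem trace_mul_zero {m : ℕ} (X Y : Matrix (Fin m) (Fin m) ℂ)
    (h : ∀ r s : ℂ, (1 + r • Y + s • X).det = (1 + r • Y).det) : (Y * X).trace = 0 := by
  have h0 : ∀ r : ℂ, ((1 + r • Y).adjugate * X).trace = 0 := fun r => trace_of_const _ _ (h r)
  have hX : X.trace = 0 := by
    have := h0 0
    rwa [zero_smul, add_zero, Matrix.adjugate_one, Matrix.one_mul] at this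
  have h1 : ∀ r : ℂ, r ≠ 0 → ((1 + r • Y).adjugate * (Y * X)).trace = 0 := by
    intro r hr
    have h2 : (1 + r • Y).adjugate * (1 + r • Y) * X = (1 + r • Y).det • X := by
      rw [Matrix.adjugate_mul, Matrix.smul_mul, Matrix.one_mul]
    have h3 : (1 + r • Y).adjugate * (1 + r • Y) * X =
        (1 + r • Y).adjugate * X + r • ((1 + r • Y).adjugate * (Y * X)) := by
      rw [Matrix.mul_assoc, Matrix.add_mul, Matrix.one_mul, Matrix.mul_add, Matrix.smul_mul,
        Matrix.mul_smul]
    have h4 := congrArg Matrix.trace (h3.symm.trans h2)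
    rw [Matrix.trace_add, Matrix.trace_smul, Matrix.trace_smul, h0, hX, smul_zero, zero_add,
      smul_eq_mul] at h4
    exact (mul_eq_zero.1 h4).resolve_left hr
  have hc : Continuous fun r : ℂ => ((1 + r • Y).adjugate * (Y * X)).trace := by
    have h5 : Continuous fun r : ℂ => (1 + r • Y) := by fun_prop
    exact (h5.matrix_adjugate.matrix_mul continuous_const).matrix_trace
  have hz : (fun r : ℂ => ((1 + r • Y).adjugate * (Y * X)).trace) = fun _ => 0 := by
    refine Continuous.ext_on (dense_compl_singleton (0 : ℂ)) hc continuous_const ?_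
    intro r hr
    exact h1 r hr
  have := congrFun hz 0
  rwa [zero_smul, add_zero, Matrix.adjugate_one, Matrix.one_mul] at this

/-- A subspace of matrices and a part orthogonal to it. -/
theorem finrank_trace {m : ℕ} {E : Type} [AddCommGroup E] [Module ℂ E] [FiniteDimensional ℂ E]
    (β : E →ₗ[ℂ] Matrix (Fin m) (Fin m) ℂ) (hβ : Function.Injective β) (T : Submodule ℂ E)
    (h : ∀ t ∈ T, ∀ y, (β y * β t).trace = 0) :
    Module.finrank ℂ T + Module.finrank ℂ E ≤ m * m := by
  -- the functionals `y ↦ tr (β y * Z)`
  let Φ : Matrix (Fin m) (Fin m) ℂ →ₗ[ℂ] Module.Dual ℂ E :=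
    { toFun := fun Z =>
        { toFun := fun y => (β y * Z).trace
          map_add' := fun a b => by rw [map_add, Matrix.add_mul, Matrix.trace_add]
          map_smul' := fun c a => by
            rw [map_smul, Matrix.smul_mul, Matrix.trace_smul, RingHom.id_apply] }
      map_add' := fun a b => by
        ext y
        show (β y * (a + b)).trace = (β y * a).trace + (β y * b).trace
        rw [Matrix.mul_add, Matrix.trace_add]
      map_smul' := fun c a => by
        ext y
        show (β y * (c • a)).trace = c • (β y * a).trace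
        rw [Matrix.mul_smul, Matrix.trace_smul] }
  have hΦ : ∀ Z y, Φ Z y = (β y * Z).trace := fun Z y => rfl
  have hsurj : Function.Surjective Φ := by
    rw [← LinearMap.range_eq_top]
    by_contra hne
    obtain ⟨f, hf, hle⟩ := Submodule.exists_le_ker_of_lt_top _ (lt_top_iff_ne_top.2 hne)
    obtain ⟨y, rfl⟩ := (Module.evalEquiv ℂ E).surjective f
    apply hf
    have hy : β y = 0 := by
      rw [Matrix.ext_iff_trace_mul_right]
      intro Z
      have := hle ⟨Z, rfl⟩
      rw [LinearMap.mem_ker] at this
      simpa [hΦ] using this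
    have : y = 0 := hβ (by rw [hy, map_zero])
    rw [this, map_zero]
  have hker : T.map β ≤ LinearMap.ker Φ := by
    rintro _ ⟨t, ht, rfl⟩
    rw [LinearMap.mem_ker]
    ext y
    exact h t ht y
  have h1 := LinearMap.finrank_range_add_finrank_ker Φ
  rw [LinearMap.range_eq_top.2 hsurj, finrank_top, Subspace.dual_finrank_eq] at h1
  have h2 : Module.finrank ℂ (T.map β) = Module.finrank ℂ T :=
    (LinearEquiv.finrank_eq (Submodule.equivMapOfInjective β hβ T)).symm
  have h3 := Submodule.finrank_mono hker
  have h4 : Module.finrank ℂ (Matrix (Fin m) (Fin m) ℂ) = m * m := by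
    rw [Module.finrank_matrix]; simp
  omega

/-- Limits of polynomial curves. -/
theorem closure_curve {W : Type} [AddCommGroup W] [Module ℂ W] {S : Set W} (F : ℕ → W) (N : ℕ)
    (h : ∀ ε : ℂ, ε ≠ 0 → ∑ k ∈ Finset.range (N + 1), ε ^ k • F k ∈ S) :
    F 0 ∈ zariskiClosure S := by
  intro P hP hS
  have key : ∃ p : Polynomial ℂ, ∀ ε : ℂ, P (∑ k ∈ Finset.range (N + 1), ε ^ k • F k) =
      p.eval ε := by
    clear hS
    induction hP using Algebra.adjoin_induction with
    | mem x hx =>
      obtain ⟨ψ, rfl⟩ := hx
      refine ⟨∑ k ∈ Finset.range (N + 1), Polynomial.monomial k (ψ (F k)), fun ε => ?_⟩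
      rw [map_sum, Polynomial.eval_finsetSum]
      refine Finset.sum_congr rfl fun k _ => ?_
      rw [map_smul, Polynomial.eval_monomial, smul_eq_mul, mul_comm]
    | algebraMap r => exact ⟨Polynomial.C r, fun ε => by simp⟩
    | add x y _ _ hx hy =>
      obtain ⟨p, hp⟩ := hx
      obtain ⟨q, hq⟩ := hy
      exact ⟨p + q, fun ε => by rw [Pi.add_apply, hp, hq, Polynomial.eval_add]⟩
    | mul x y _ _ hx hy =>
      obtain ⟨p, hp⟩ := hx
      obtain ⟨q, hq⟩ := hy
      exact ⟨p * q, fun ε => by rw [Pi.mul_apply, hp, hq, Polynomial.eval_mul]⟩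
  obtain ⟨p, hp⟩ := key
  have h1 : ∀ ε : ℂ, ε ≠ 0 → p.eval ε = 0 := fun ε hε => by rw [← hp, hS _ (h ε hε)]
  have h2 : p.eval 0 = 0 := by
    have hz : (fun r : ℂ => p.eval r) = fun _ => 0 := by
      refine Continuous.ext_on (dense_compl_singleton (0 : ℂ)) p.continuous continuous_const ?_
      intro r hr
      exact h1 r hr
    exact congrFun hz 0
  have h3 := hp 0
  rw [h2, Finset.sum_eq_single 0] at h3
  · simpa using h3
  · intro k _ hk
    rw [zero_pow hk, zero_smul]
  · intro h; exact absurd (Finset.mem_range.2 (Nat.succ_pos N)) h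

end PadDet
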