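import Pool.Agent.H.MP_d7db32_ag.E

/-!
# MP_d7db32_ag, F: the cyclic matrix and its adjugate
-/

set_option autoImplicit false

namespace PadDet

open Matrix

/-- The cyclic shift of the indices. -/
def sh (n : ℕ) : Equiv.Perm (Fin n) := finRotate n

theorem sh_val {n : ℕ} (i : Fin n) :
    ((sh n i : Fin n) : ℕ) = if (i : ℕ) + 1 = n then 0 else (i : ℕ) + 1 := by
  obtain ⟨k, rfl⟩ : ∃ k, n = k + 1 := ⟨n - 1, by have := i.2; omega⟩
  unfold sh
  rw [coe_finRotate]
  by_cases h : i = Fin.last k
  · rw [if_pos h, if_pos (by rw [h]; simp)]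
  · rw [if_neg h, if_neg]
    intro h2
    exact h (Fin.ext (by rw [Fin.val_last]; omega))

theorem sh_ne {n : ℕ} (hn : 2 ≤ n) (i : Fin n) : sh n i ≠ i := by
  intro h
  have h1 := sh_val i
  rw [h] at h1
  have := i.2
  split_ifs at h1 <;> omega

theorem sh_sh_ne {n : ℕ} (hn : 3 ≤ n) (i : Fin n) : sh n (sh n i) ≠ i := by
  intro h
  have h1 := sh_val (sh n i)
  rw [h, sh_val i] at h1
  have := i.2
  split_ifs at h1 <;> omega

/-- The shift is transitive. -/
theorem sh_trans {n : ℕ} (P : Fin n → Prop) (hP : ∀ l, P l → P (sh n l)) (l0 : Fin n)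
    (h0 : P l0) (l : Fin n) : P l := by
  have hn : 0 < n := lt_of_le_of_lt (Nat.zero_le _) l0.2
  have up : ∀ (a : Fin n), P a → ∀ j (h : (a : ℕ) + j < n), P ⟨a + j, h⟩ := by
    intro a ha j
    induction j with
    | zero => intro h; exact ha
    | succ j ih =>
      intro h
      have h1 := hP _ (ih (by omega))
      have h2 : sh n ⟨a + j, by omega⟩ = ⟨a + (j + 1), h⟩ := by
        apply Fin.ext
        rw [sh_val, if_neg]
        · rfl
        · show ¬ ((a : ℕ) + j + 1 = n)
          omega
      rwa [h2] at h1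
  have hlast : P ⟨n - 1, by omega⟩ := by
    have h1 := up l0 h0 (n - 1 - l0) (by have := l0.2; omega)
    have h2 : (⟨(l0 : ℕ) + (n - 1 - l0), by have := l0.2; omega⟩ : Fin n) = ⟨n - 1, by omega⟩ :=
      Fin.ext (by show (l0 : ℕ) + (n - 1 - l0) = n - 1; have := l0.2; omega)
    rwa [h2] at h1
  have hzero : P ⟨0, hn⟩ := by
    have h1 := hP _ hlast
    have h2 : sh n ⟨n - 1, by omega⟩ = ⟨0, hn⟩ := by
      apply Fin.ext
      rw [sh_val, if_pos]
      show n - 1 + 1 = n
      omega
    rwa [h2] at h1
  have h1 := up _ hzero l (by show 0 + (l : ℕ) < n; have := l.2; omega)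
  have h2 : (⟨((⟨0, hn⟩ : Fin n) : ℕ) + (l : ℕ), by
      show 0 + (l : ℕ) < n; have := l.2; omega⟩ : Fin n) = l := Fin.ext (by show 0 + (l : ℕ) = l; omega)
  rwa [h2] at h1

/-- The determinant of a matrix with entries on the diagonal and the shifted diagonal, one of the
latter being zero. -/
theorem det_bidiag {R : Type} [CommRing R] {n : ℕ} (hn : 2 ≤ n) (M : Matrix (Fin n) (Fin n) R)
    (hM : ∀ l k, k ≠ l → k ≠ sh n l → M l k = 0) (i0 : Fin n) (h0 : M i0 (sh n i0) = 0) :
    M.det = ∏ l, M l l := by
  rw [← Matrix.det_transpose, Matrix.det_apply', Finset.sum_eq_single 1]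
  · simp
  · intro π _ hπ
    have : ∃ l, M l (π l) = 0 := by
      by_contra hcon
      push Not at hcon
      apply hπ
      have h1 : ∀ l, π l = l ∨ π l = sh n l := by
        intro l
        by_contra h
        push Not at h
        exact hcon l (hM l (π l) h.1 h.2)
      have hi0 : π i0 = i0 := by
        rcases h1 i0 with h | h
        · exact h
        · exact absurd (by rw [h]; exact h0) (hcon i0)
      by_contra hne
      have : ∃ l, π l ≠ l := by
        by_contra h
        push Not at h
        exact hne (Equiv.ext h)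
      obtain ⟨l, hl⟩ := this
      have hall := sh_trans (fun l => π l ≠ l) (fun l hl h => by
        have h2 : π l = sh n l := (h1 l).resolve_left hl
        have h3 : π (sh n l) = π l := by rw [h, h2]
        exact sh_ne hn l (π.injective h3)) l hl i0
      exact hall hi0
    obtain ⟨l, hl⟩ := this
    have hz : ∏ i, Mᵀ (π i) i = 0 := Finset.prod_eq_zero (Finset.mem_univ l) hl
    rw [hz, mul_zero]
  · intro h; exact absurd (Finset.mem_univ _) h

/-- The cyclic matrix, whose row `i` is the syzygy `x_i e_{i+1} - x_{i+1} e_i`. -/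
def cyc {R : Type} [CommRing R] (n : ℕ) (x : Fin n → R) : Matrix (Fin n) (Fin n) R :=
  Matrix.of fun i j => (if j = sh n i then x i else 0) - (if j = i then x (sh n i) else 0)

section Cyc

variable {R : Type} [CommRing R] {n : ℕ} (x : Fin n → R)

theorem cyc_apply (i j : Fin n) :
    cyc n x i j = (if j = sh n i then x i else 0) - (if j = i then x (sh n i) else 0) := rfl

theorem cyc_mul_apply (M : Matrix (Fin n) (Fin n) R) (l i : Fin n) :
    (cyc n x * M) l i = x l * M (sh n l) i - x (sh n l) * M l i := by
  rw [Matrix.mul_apply]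
  simp only [cyc_apply, sub_mul, ite_mul, zero_mul, Finset.sum_sub_distrib]
  simp

theorem cyc_mulVec : cyc n x *ᵥ x = 0 := by
  ext l
  simp only [Matrix.mulVec, dotProduct, cyc_apply, sub_mul, ite_mul, zero_mul,
    Finset.sum_sub_distrib]
  simp [mul_comm]

theorem adj_diag (hn : 2 ≤ n) (i : Fin n) :
    (cyc n x).adjugate i i = ∏ l ∈ Finset.univ.erase i, (- x (sh n l)) := by
  rw [Matrix.adjugate_apply, det_bidiag hn _ _ i]
  · rw [← Finset.mul_prod_erase _ _ (Finset.mem_univ i)]
    rw [Matrix.updateRow_self, Pi.single_eq_same, one_mul]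
    refine Finset.prod_congr rfl fun l hl => ?_
    rw [Matrix.updateRow_ne (Finset.ne_of_mem_erase hl), cyc_apply, if_neg (sh_ne hn l).symm,
      if_pos rfl, zero_sub]
  · rw [Matrix.updateRow_self, Pi.single_eq_of_ne (sh_ne hn i)]
  · intro l k h1 h2
    by_cases h : l = i
    · subst h
      rw [Matrix.updateRow_self, Pi.single_eq_of_ne h1]
    · rw [Matrix.updateRow_ne h, cyc_apply, if_neg h2, if_neg h1, sub_zero]

variable [IsDomain R]

theorem cyc_det (i : Fin n) (hx : x i ≠ 0) : (cyc n x).det = 0 := by
  by_contra h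
  exact hx (congrFun (Matrix.eq_zero_of_mulVec_eq_zero h (cyc_mulVec x)) i)

end Cyc

/-- The adjugate of the cyclic matrix. -/
theorem adj_formula {n : ℕ} (hn : 2 ≤ n) (x : Fin n → ℂ) (hx : ∀ i, x i ≠ 0) (j i : Fin n) :
    (cyc n x).adjugate j i = (-1) ^ (n - 1) * (x j * ∏ l ∈ (Finset.univ.erase i).erase (sh n i), x l) := by
  have h1 : ∀ l, x l * (cyc n x).adjugate (sh n l) i = x (sh n l) * (cyc n x).adjugate l i := by
    intro l
    have h := congrFun (congrFun (Matrix.mul_adjugate (cyc n x)) l) i
    rw [cyc_mul_apply, cyc_det x i (hx i), zero_smul, Matrix.zero_apply] at h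
    exact sub_eq_zero.1 h
  have h2 := sh_trans (fun l => (cyc n x).adjugate l i * x i = (cyc n x).adjugate i i * x l)
    (fun l hl => by
      have h3 := h1 l
      have h4 : x l * ((cyc n x).adjugate (sh n l) i * x i) =
          x l * ((cyc n x).adjugate i i * x (sh n l)) := by
        calc x l * ((cyc n x).adjugate (sh n l) i * x i)
            = (x l * (cyc n x).adjugate (sh n l) i) * x i := by ring
          _ = x (sh n l) * ((cyc n x).adjugate l i * x i) := by rw [h3]; ring
          _ = _ := by rw [hl]; ring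
      exact mul_left_cancel₀ (hx l) h4) i rfl j
  have h5 : ∏ l ∈ Finset.univ.erase i, (- x (sh n l)) =
      (-1) ^ (n - 1) * (x i * ∏ l ∈ (Finset.univ.erase i).erase (sh n i), x l) := by
    have h6 : ∏ l ∈ Finset.univ.erase i, (- x (sh n l)) =
        (-1) ^ (n - 1) * ∏ l ∈ Finset.univ.erase i, x (sh n l) := by
      rw [Finset.prod_neg, Finset.card_erase_of_mem (Finset.mem_univ _), Finset.card_univ,
        Fintype.card_fin]
    have h7 : ∏ l ∈ Finset.univ.erase i, x (sh n l) = ∏ l ∈ Finset.univ.erase (sh n i), x l := by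
      rw [← Finset.prod_image (s := Finset.univ.erase i) (g := sh n) (f := x)
        (fun a _ b _ h => (sh n).injective h)]
      congr 1
      ext a
      simp only [Finset.mem_image, Finset.mem_erase, Finset.mem_univ, and_true]
      constructor
      · rintro ⟨b, hb, rfl⟩ h
        exact hb ((sh n).injective h)
      · intro ha
        exact ⟨(sh n).symm a, fun h => ha (by rw [← h, Equiv.apply_symm_apply]),
          Equiv.apply_symm_apply _ _⟩
    have h8 : i ∈ Finset.univ.erase (sh n i) :=
      Finset.mem_erase.2 ⟨(sh_ne hn i).symm, Finset.mem_univ _⟩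
    rw [h6, h7, ← Finset.mul_prod_erase _ _ h8, Finset.erase_right_comm]
  rw [adj_diag x hn, h5] at h2
  apply mul_right_cancel₀ (hx i)
  rw [h2]
  ring

/-- The functionals given by the adjugates separate the matrices with zero shifted diagonal. -/
theorem separate {n : ℕ} (hn : 3 ≤ n) (Y : Matrix (Fin n) (Fin n) ℂ) (hY : ∀ i, Y i (sh n i) = 0)
    (h : ∀ x : Fin n → ℂ, ((cyc n x).adjugate * Y).trace = 0) : Y = 0 := by
  have hn2 : 2 ≤ n := by omega
  let Q : MvPolynomial (Fin n) ℂ := ∑ j, ∑ i, MvPolynomial.C (Y i j) * (MvPolynomial.X j *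
    ∏ l ∈ (Finset.univ.erase i).erase (sh n i), MvPolynomial.X l)
  have hev : ∀ x : Fin n → ℂ, MvPolynomial.eval x Q =
      ∑ j, ∑ i, Y i j * (x j * ∏ l ∈ (Finset.univ.erase i).erase (sh n i), x l) := by
    intro x
    simp [Q]
  have hQ : Q * ∏ l, MvPolynomial.X l = 0 := by
    refine MvPolynomial.funext fun x => ?_
    rw [map_mul, map_zero, map_prod]
    simp only [MvPolynomial.eval_X]
    by_cases hx : ∀ i, x i ≠ 0
    · have h1 := h x
      rw [Matrix.trace] at h1
      simp only [Matrix.diag_apply, Matrix.mul_apply, adj_formula hn2 x hx] at h1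
      have h2 : MvPolynomial.eval x Q = 0 := by
        rw [hev]
        have h3 : ((-1 : ℂ) ^ (n - 1)) * ∑ j, ∑ i, Y i j * (x j *
            ∏ l ∈ (Finset.univ.erase i).erase (sh n i), x l) = 0 := by
          rw [← h1, Finset.mul_sum]
          refine Finset.sum_congr rfl fun j _ => ?_
          rw [Finset.mul_sum]
          refine Finset.sum_congr rfl fun i _ => ?_
          ring
        exact (mul_eq_zero.1 h3).resolve_left (pow_ne_zero _ (by norm_num))
      rw [h2, zero_mul]
    · push Not at hx
      obtain ⟨i, hi⟩ := hx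
      rw [Finset.prod_eq_zero (Finset.mem_univ i) hi, mul_zero]
  have hQ0 : Q = 0 := by
    rcases mul_eq_zero.1 hQ with h1 | h1
    · exact h1
    · exact absurd h1 (Finset.prod_ne_zero_iff.2 fun l _ => MvPolynomial.X_ne_zero l)
  have hq : ∀ x : Fin n → ℂ,
      ∑ j, ∑ i, Y i j * (x j * ∏ l ∈ (Finset.univ.erase i).erase (sh n i), x l) = 0 := by
    intro x
    rw [← hev, hQ0, map_zero]
  -- the entries off the diagonal
  have step1 : ∀ i j, j ≠ i → j ≠ sh n i → Y i j = 0 := by
    intro i j hj1 hj2
    have key : ∀ x : Fin n → ℂ, x i = 0 → x (sh n i) = 0 →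
        (∑ j, Y i j * x j) * ∏ l ∈ (Finset.univ.erase i).erase (sh n i), x l = 0 := by
      intro x hx1 hx2
      have h1 := hq x
      rw [Finset.sum_comm, Finset.sum_eq_single i] at h1
      · rw [← h1, Finset.sum_mul]
        exact Finset.sum_congr rfl fun j _ => by ring
      · intro b _ hb
        refine Finset.sum_eq_zero fun c _ => ?_
        have hz : ∏ l ∈ (Finset.univ.erase b).erase (sh n b), x l = 0 := by
          by_cases h2 : i = sh n b
          · refine Finset.prod_eq_zero (i := sh n i) ?_ hx2
            rw [Finset.mem_erase, Finset.mem_erase]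
            refine ⟨?_, ?_, Finset.mem_univ _⟩
            · rw [← h2]; exact sh_ne hn2 i
            · rw [h2]; exact sh_sh_ne hn b
          · refine Finset.prod_eq_zero (i := i) ?_ hx1
            rw [Finset.mem_erase, Finset.mem_erase]
            exact ⟨h2, fun h => hb h.symm, Finset.mem_univ _⟩
        rw [hz]; ring
      · intro h; exact absurd (Finset.mem_univ _) h
    let x1 : Fin n → ℂ := fun l => if l = i ∨ l = sh n i then 0 else 1
    let x2 : Fin n → ℂ := fun l => if l = i ∨ l = sh n i then 0 else if l = j then 2 else 1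
    have e1 := key x1 (if_pos (Or.inl rfl)) (if_pos (Or.inr rfl))
    have e2 := key x2 (if_pos (Or.inl rfl)) (if_pos (Or.inr rfl))
    have p1 : ∏ l ∈ (Finset.univ.erase i).erase (sh n i), x1 l ≠ 0 := by
      rw [Finset.prod_ne_zero_iff]
      intro l hl
      rw [Finset.mem_erase, Finset.mem_erase] at hl
      show (if l = i ∨ l = sh n i then (0 : ℂ) else 1) ≠ 0
      rw [if_neg (by rintro (h | h); exact hl.2.1 h; exact hl.1 h)]
      exact one_ne_zero
    have p2 : ∏ l ∈ (Finset.univ.erase i).erase (sh n i), x2 l ≠ 0 := by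
      rw [Finset.prod_ne_zero_iff]
      intro l hl
      rw [Finset.mem_erase, Finset.mem_erase] at hl
      show (if l = i ∨ l = sh n i then (0 : ℂ) else if l = j then 2 else 1) ≠ 0
      rw [if_neg (by rintro (h | h); exact hl.2.1 h; exact hl.1 h)]
      split_ifs
      · exact two_ne_zero
      · exact one_ne_zero
    have f1 := (mul_eq_zero.1 e1).resolve_right p1
    have f2 := (mul_eq_zero.1 e2).resolve_right p2
    have f3 : ∑ k, Y i k * x2 k - ∑ k, Y i k * x1 k = Y i j := by
      rw [← Finset.sum_sub_distrib, Finset.sum_eq_single j]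
      · show Y i j * (if j = i ∨ j = sh n i then (0 : ℂ) else if j = j then 2 else 1) -
          Y i j * (if j = i ∨ j = sh n i then (0 : ℂ) else 1) = _
        have hneg : ¬ (j = i ∨ j = sh n i) := by tauto
        rw [if_neg hneg, if_neg hneg, if_pos rfl]
        ring
      · intro k _ hk
        show Y i k * (if k = i ∨ k = sh n i then (0 : ℂ) else if k = j then 2 else 1) -
          Y i k * (if k = i ∨ k = sh n i then (0 : ℂ) else 1) = 0
        rw [if_neg hk, sub_self]
      · intro h; exact absurd (Finset.mem_univ _) h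
    rw [← f3, f1, f2, sub_zero]
  -- the diagonal entries
  have step2 : ∀ i, Y i i = 0 := by
    intro i
    let x1 : Fin n → ℂ := fun l => if l = sh n i then 0 else 1
    have h1 := hq x1
    rw [Finset.sum_comm, Finset.sum_eq_single i] at h1
    · rw [Finset.sum_eq_single i] at h1
      · have h2 : x1 i = 1 := if_neg (sh_ne hn2 i).symm
        have h3 : ∏ l ∈ (Finset.univ.erase i).erase (sh n i), x1 l = 1 := by
          refine Finset.prod_eq_one fun l hl => ?_
          exact if_neg (Finset.ne_of_mem_erase hl)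
        rw [h2, h3, mul_one, mul_one] at h1
        exact h1
      · intro j _ hj
        by_cases hj2 : j = sh n i
        · rw [hj2, hY, zero_mul]
        · rw [step1 i j hj hj2, zero_mul]
      · intro h; exact absurd (Finset.mem_univ _) h
    · intro b _ hb
      refine Finset.sum_eq_zero fun j _ => ?_
      by_cases hj1 : j = b
      · subst hj1
        -- `x_j ∏_{l ≠ j, j+1} x_l` contains `x_{i+1}`
        by_cases h2 : sh n i = j
        · have : x1 j = 0 := if_pos h2.symm
          rw [this]; ring
        · have hz : ∏ l ∈ (Finset.univ.erase j).erase (sh n j), x1 l = 0 := by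
            refine Finset.prod_eq_zero (i := sh n i) ?_ (if_pos rfl)
            rw [Finset.mem_erase, Finset.mem_erase]
            exact ⟨fun h => hb ((sh n).injective h).symm, h2, Finset.mem_univ _⟩
          rw [hz]; ring
      · by_cases hj2 : j = sh n b
        · rw [hj2, hY, zero_mul]
        · rw [step1 b j hj1 hj2, zero_mul]
    · intro h; exact absurd (Finset.mem_univ _) h
  ext i j
  by_cases h1 : j = i
  · rw [h1, step2 i]; rfl
  · by_cases h2 : j = sh n i
    · rw [h2, hY]; rfl
    · rw [step1 i j h1 h2]; rfl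

end PadDet
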