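import Pool.Agent.H.MP_d7db32_ag.F

/-!
# MP_d7db32_ag, G: a limit of the orbit of the determinant
-/

set_option autoImplicit false

namespace PadDet

open MvPolynomial Matrix

/-- The matrix of the entries off the shifted diagonal. -/
def offd {R : Type} [Zero R] (n : ℕ) (p : Fin n × Fin n → R) : Matrix (Fin n) (Fin n) R :=
  Matrix.of fun i j => if j = sh n i then 0 else p (i, j)

/-- The first order term of `det (cyc x + t Y)`. -/
noncomputable def limPoly (n : ℕ) : MvPolynomial (Fin n × Fin n) ℂ :=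
  ((cyc n fun i => X (i, sh n i)).adjugate * offd n X).trace

theorem map_cyc {R S : Type} [CommRing R] [CommRing S] (f : R →+* S) (n : ℕ) (x : Fin n → R) :
    (cyc n x).map f = cyc n (fun i => f (x i)) := by
  ext i j
  rw [Matrix.map_apply, cyc_apply, cyc_apply, map_sub]
  split_ifs <;> simp

theorem map_trace_adj {R S : Type} [CommRing R] [CommRing S] (f : R →+* S) {n : ℕ}
    (A Y : Matrix (Fin n) (Fin n) R) :
    f (A.adjugate * Y).trace = ((A.map f).adjugate * Y.map f).trace := by
  have h1 : (A.map f).adjugate = A.adjugate.map f := (RingHom.map_adjugate f A).symm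
  rw [h1, ← Matrix.map_mul, Matrix.trace, Matrix.trace, map_sum]
  rfl

theorem eval_limPoly {n : ℕ} (p : Fin n × Fin n → ℂ) :
    eval p (limPoly n) = ((cyc n fun i => p (i, sh n i)).adjugate * offd n p).trace := by
  unfold limPoly
  rw [map_trace_adj, map_cyc]
  congr 3
  · ext i; simp
  · ext i j
    simp only [Matrix.map_apply, offd, Matrix.of_apply]
    split_ifs <;> simp

/-- The substitution whose image of the matrix of variables is `c (cyc + ε Y)`. -/
noncomputable def gmat (n : ℕ) (c ε : ℂ) : Matrix (Fin n × Fin n) (Fin n × Fin n) ℂ :=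
  Matrix.of fun p v => c * (if p.2 = sh n p.1 then (if v = p then 1 else 0) else
    ε * (if v = p then 1 else 0) -
      (if p.2 = p.1 then (if v = (sh n p.1, sh n (sh n p.1)) then 1 else 0) else 0))

theorem gmat_mulVec {n : ℕ} (c ε : ℂ) (z : Fin n × Fin n → ℂ) (p : Fin n × Fin n) :
    (gmat n c ε *ᵥ z) p = c * (if p.2 = sh n p.1 then z p else
      ε * z p - (if p.2 = p.1 then z (sh n p.1, sh n (sh n p.1)) else 0)) := by
  simp only [Matrix.mulVec, dotProduct, gmat, Matrix.of_apply]
  split_ifs
  · simp only [mul_ite, mul_one, mul_zero, ite_mul, zero_mul, Finset.sum_ite_eq', Finset.mem_univ,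
      if_true]
  · simp only [mul_sub, sub_mul, Finset.sum_sub_distrib, mul_ite, ite_mul, mul_one, mul_zero,
      zero_mul, Finset.sum_ite_eq', Finset.mem_univ, if_true]
    ring
  · simp only [sub_zero, mul_ite, ite_mul, mul_one, mul_zero,
      zero_mul, Finset.sum_ite_eq', Finset.mem_univ, if_true]
    ring

theorem gmat_unit {n : ℕ} {c ε : ℂ} (hc : c ≠ 0) (hε : ε ≠ 0) : IsUnit (gmat n c ε).det := by
  rw [isUnit_iff_ne_zero]
  intro h0
  obtain ⟨z, hz, h⟩ := Matrix.exists_mulVec_eq_zero_iff.2 h0
  apply hz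
  have h1 : ∀ i, z (i, sh n i) = 0 := by
    intro i
    have := congrFun h (i, sh n i)
    rw [gmat_mulVec, if_pos rfl] at this
    exact (mul_eq_zero.1 this).resolve_left hc
  ext p
  obtain ⟨i, j⟩ := p
  by_cases hj : j = sh n i
  · rw [hj]; exact h1 i
  · have := congrFun h (i, j)
    rw [gmat_mulVec, if_neg hj] at this
    have h2 : ε * z (i, j) - (if j = i then z (sh n i, sh n (sh n i)) else 0) = 0 :=
      (mul_eq_zero.1 this).resolve_left hc
    rw [h1, ite_self, sub_zero] at h2
    exact (mul_eq_zero.1 h2).resolve_left hε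

theorem subst_gmat {n : ℕ} (hn : 2 ≤ n) (c ε : ℂ) :
    subst (gmat n c ε) (detPoly n) =
      C (c ^ n) * ((cyc n fun i => X (i, sh n i)) + (C ε : MvPolynomial (Fin n × Fin n) ℂ) •
        offd n X).det := by
  rw [subst_det]
  have h : (Matrix.of fun i j => ∑ v, C (gmat n c ε (i, j) v) * X v :
      Matrix (Fin n) (Fin n) (MvPolynomial (Fin n × Fin n) ℂ)) =
      (C c : MvPolynomial (Fin n × Fin n) ℂ) • ((cyc n fun i => X (i, sh n i)) +
        (C ε : MvPolynomial (Fin n × Fin n) ℂ) • offd n X) := by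
    ext1 i j
    rw [Matrix.of_apply, Matrix.smul_apply, Matrix.add_apply, Matrix.smul_apply, cyc_apply,
      smul_eq_mul, smul_eq_mul]
    simp only [gmat, offd, Matrix.of_apply]
    have hs : ∀ (a : MvPolynomial (Fin n × Fin n) ℂ) (q : Fin n × Fin n),
        ∑ v, a * C (if v = q then (1 : ℂ) else 0) *
        (X v : MvPolynomial (Fin n × Fin n) ℂ) = a * X q := by
      intro a q
      rw [Finset.sum_eq_single q]
      · rw [if_pos rfl, map_one, mul_one]
      · intro v _ hv
        rw [if_neg hv, map_zero, mul_zero, zero_mul]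
      · intro h; exact absurd (Finset.mem_univ _) h
    by_cases h1 : j = sh n i
    · subst h1
      simp only [if_true, if_neg (sh_ne hn i), mul_zero, add_zero, sub_zero, map_mul, hs]
    · by_cases h2 : j = i
      · subst h2
        simp only [if_neg h1, if_true]
        simp only [mul_sub, map_sub, sub_mul, Finset.sum_sub_distrib, ← mul_assoc, map_mul, hs]
        ring
      · simp only [if_neg h1, if_neg h2, sub_zero, ← mul_assoc, map_mul, hs]
        ring
  rw [h, Matrix.det_smul, Fintype.card_fin, map_pow]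

theorem limPoly_mem {n : ℕ} (hn : 2 ≤ n) : limPoly n ∈ zariskiClosure (orbit n) := by
  set A := cyc n fun i => (X (i, sh n i) : MvPolynomial (Fin n × Fin n) ℂ) with hA
  set Y := offd n (X : Fin n × Fin n → MvPolynomial (Fin n × Fin n) ℂ) with hY
  let D := (A.map Polynomial.C + (Polynomial.X : Polynomial (MvPolynomial (Fin n × Fin n) ℂ)) •
    Y.map Polynomial.C).det
  have hD1 : D.coeff 1 = limPoly n := coeff_one_det A Y
  have hDe : ∀ a : MvPolynomial (Fin n × Fin n) ℂ, D.eval a = (A + a • Y).det := by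
    intro a
    have := (Polynomial.evalRingHom a).map_det
      (A.map Polynomial.C + (Polynomial.X : Polynomial (MvPolynomial (Fin n × Fin n) ℂ)) •
        Y.map Polynomial.C)
    rw [Polynomial.coe_evalRingHom] at this
    show Polynomial.eval a D = _
    rw [this]
    congr 1
    ext1 i j
    simp
    exact mul_comm _ _
  have hD0 : D.coeff 0 = 0 := by
    rw [Polynomial.coeff_zero_eq_eval_zero, hDe, zero_smul, add_zero]
    exact cyc_det _ ⟨0, by omega⟩ (X_ne_zero _)
  rw [← hD1]
  refine closure_curve (fun k => D.coeff (k + 1)) D.natDegree fun ε hε => ?_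
  obtain ⟨c, hc⟩ := IsAlgClosed.exists_pow_nat_eq (ε⁻¹) (n := n) (by omega)
  have hc0 : c ≠ 0 := by
    rintro rfl
    rw [zero_pow (by omega)] at hc
    exact inv_ne_zero hε hc.symm
  refine ⟨gmat n c ε, gmat_unit hc0 hε, ?_⟩
  rw [subst_gmat hn, hc, ← hDe, Polynomial.eval_eq_sum_range' (n := D.natDegree + 1 + 1) (by omega),
    Finset.sum_range_succ' _ (D.natDegree + 1), hD0, zero_mul, add_zero, Finset.mul_sum]
  refine Finset.sum_congr rfl fun k _ => ?_
  have h1 : (C ε⁻¹ : MvPolynomial (Fin n × Fin n) ℂ) * C ε = 1 := by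
    rw [← map_mul, inv_mul_cancel₀ hε, map_one]
  rw [MvPolynomial.smul_eq_C_mul, map_pow, pow_succ]
  calc (C ε : MvPolynomial (Fin n × Fin n) ℂ) ^ k * D.coeff (k + 1)
      = (C ε⁻¹ * C ε) * (C ε ^ k * D.coeff (k + 1)) := by rw [h1, one_mul]
    _ = _ := by ring

end PadDet
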