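import Pool.Agent.H.MP_d7db32_ag.G
import Pool.Agent.H.MP_d7db32_ag.D

/-!
# MP_d7db32_ag, K: the lower bound for the size of the determinant
-/

set_option autoImplicit false

namespace PadDet

open MvPolynomial Matrix

/-- The pairs off the shifted diagonal. -/
abbrev Off (n : ℕ) : Type := {p : Fin n × Fin n // p.2 ≠ sh n p.1}

theorem card_off (n : ℕ) : Fintype.card (Off n) = n * n - n := by
  have h1 := Fintype.card_subtype_compl (fun p : Fin n × Fin n => p.2 = sh n p.1)
  have h2 : Fintype.card {p : Fin n × Fin n // p.2 = sh n p.1} = n := by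
    let φ : {p : Fin n × Fin n // p.2 = sh n p.1} ≃ Fin n :=
      { toFun := fun p => p.1.1
        invFun := fun i => ⟨(i, sh n i), rfl⟩
        left_inv := fun p => by
          apply Subtype.ext
          exact Prod.ext rfl p.2.symm
        right_inv := fun i => rfl }
    rw [Fintype.card_congr φ, Fintype.card_fin]
  rw [Fintype.card_prod, Fintype.card_fin, h2] at h1
  exact h1

/-- The matrix of a vector indexed by the pairs off the shifted diagonal. -/
def ymat {n : ℕ} (y : Off n → ℂ) : Matrix (Fin n) (Fin n) ℂ :=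
  Matrix.of fun i j => if h : j ≠ sh n i then y ⟨(i, j), h⟩ else 0

theorem ymat_sh {n : ℕ} (y : Off n → ℂ) (i : Fin n) : ymat y i (sh n i) = 0 := by
  show (if h : sh n i ≠ sh n i then y ⟨(i, sh n i), h⟩ else 0) = 0
  rw [dif_neg (by simp)]

theorem ymat_eq_zero {n : ℕ} {y : Off n → ℂ} (h : ymat y = 0) : y = 0 := by
  ext ⟨⟨i, j⟩, hp⟩
  have := congrFun (congrFun h i) j
  have h1 : ymat y i j = y ⟨(i, j), hp⟩ := dif_pos hp
  rw [h1] at this
  exact this

theorem ymat_add {n : ℕ} (y z : Off n → ℂ) : ymat (y + z) = ymat y + ymat z := by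
  ext i j
  show (if h : j ≠ sh n i then (y + z) ⟨(i, j), h⟩ else 0) =
    (if h : j ≠ sh n i then y ⟨(i, j), h⟩ else 0) + (if h : j ≠ sh n i then z ⟨(i, j), h⟩ else 0)
  split_ifs
  · rfl
  · simp

theorem ymat_smul {n : ℕ} (c : ℂ) (y : Off n → ℂ) : ymat (c • y) = c • ymat y := by
  ext i j
  show (if h : j ≠ sh n i then (c • y) ⟨(i, j), h⟩ else 0) =
    c * (if h : j ≠ sh n i then y ⟨(i, j), h⟩ else 0)
  split_ifs
  · rfl
  · simp

/-- Two functionals have a common kernel of codimension at most two. -/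
theorem finrank_inf_ker {E : Type} [AddCommGroup E] [Module ℂ E] [FiniteDimensional ℂ E]
    (f g : E →ₗ[ℂ] ℂ) :
    Module.finrank ℂ E ≤ Module.finrank ℂ (LinearMap.ker f ⊓ LinearMap.ker g : Submodule ℂ E) + 2 := by
  have h1 := LinearMap.finrank_range_add_finrank_ker (f.prod g)
  rw [LinearMap.ker_prod] at h1
  have h2 : Module.finrank ℂ (LinearMap.range (f.prod g)) ≤ 2 := by
    have := Submodule.finrank_le (LinearMap.range (f.prod g))
    rwa [Module.finrank_prod, Module.finrank_self] at this
  omega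

theorem limPoly_ne_zero {n : ℕ} (hn : 3 ≤ n) : limPoly n ≠ 0 := by
  intro h0
  have h1 : offd n (fun _ => (1 : ℂ)) = 0 := by
    refine separate hn _ (fun i => if_pos rfl) fun x => ?_
    have h2 := eval_limPoly (n := n) (fun q => if q.2 = sh n q.1 then x q.1 else 1)
    rw [h0, map_zero] at h2
    rw [h2]
    have h3 : (fun i : Fin n => (fun q : Fin n × Fin n => if q.2 = sh n q.1 then x q.1 else 1)
        (i, sh n i)) = x := by
      funext i
      exact if_pos rfl
    have h4 : offd n (fun q : Fin n × Fin n => if q.2 = sh n q.1 then x q.1 else 1) =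
        offd n (fun _ => (1 : ℂ)) := by
      ext i j
      show (if j = sh n i then (0 : ℂ) else (if j = sh n i then x i else 1)) =
        if j = sh n i then 0 else 1
      split_ifs <;> rfl
    rw [h3, h4]
  have h2 := congrFun (congrFun h1 ⟨0, by omega⟩) ⟨0, by omega⟩
  have h3 : offd n (fun _ => (1 : ℂ)) ⟨0, by omega⟩ ⟨0, by omega⟩ = 1 :=
    if_neg (sh_ne (by omega) _).symm
  rw [h3] at h2
  exact one_ne_zero h2

theorem core_lower {n m : ℕ} (hn : 3 ≤ n) (e : Fin n × Fin n ↪ Fin m × Fin m)
    (l : MvPolynomial (Fin m × Fin m) ℂ) (hl1 : l.IsHomogeneous 1) (hl : l ≠ 0)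
    (A : Matrix (Fin m × Fin m) (Fin m × Fin m) ℂ)
    (hA : l ^ (m - n) * rename e (limPoly n) = subst A (detPoly m)) :
    2 * (n * n - n) ≤ m * m + 2 := by
  have hn2 : 2 ≤ n := by omega
  -- the linear maps
  let B : (Fin m × Fin m → ℂ) →ₗ[ℂ] Matrix (Fin m) (Fin m) ℂ :=
    { toFun := fun w => Matrix.of fun i j => ∑ v, A (i, j) v * w v
      map_add' := fun a b => by
        ext i j
        simp only [Matrix.of_apply, Matrix.add_apply, Pi.add_apply, mul_add, Finset.sum_add_distrib]
      map_smul' := fun c a => by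
        ext i j
        simp only [Matrix.of_apply, Pi.smul_apply, smul_eq_mul, RingHom.id_apply,
          Matrix.smul_apply, Finset.mul_sum]
        exact Finset.sum_congr rfl fun v _ => by ring }
  let L : (Fin m × Fin m → ℂ) →ₗ[ℂ] ℂ :=
    { toFun := fun w => ∑ v, coeff 0 (pderiv v l) * w v
      map_add' := fun a b => by simp [mul_add, Finset.sum_add_distrib]
      map_smul' := fun c a => by
        simp only [Pi.smul_apply, smul_eq_mul, RingHom.id_apply, Finset.mul_sum]
        exact Finset.sum_congr rfl fun v _ => by ring }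
  have hL : ∀ w : Fin m × Fin m → ℂ, eval w l = L w := by
    intro w
    conv_lhs => rw [linear_eq hl1]
    simp [L]
  let Fv : (Fin m × Fin m → ℂ) → ℂ := fun w => ((cyc n fun i => w (e (i, sh n i))).adjugate * offd n (w ∘ e)).trace
  have hF : ∀ w : Fin m × Fin m → ℂ, eval w (rename e (limPoly n)) = Fv w := by
    intro w
    rw [eval_rename, eval_limPoly]
    rfl
  have hG : ∀ w : Fin m × Fin m → ℂ, L w ^ (m - n) * Fv w = (B w).det := by
    intro w
    have h1 := congrArg (eval w) hA
    rw [map_mul, map_pow, hL, hF, subst_det] at h1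
    rw [h1, (eval w).map_det]
    congr 1
    ext i j
    simp [B]
  -- the directions
  let ι : (Off n → ℂ) →ₗ[ℂ] (Fin m × Fin m → ℂ) := Function.ExtendByZero.linearMap ℂ (fun p : Off n => e p.1)
  have hinj : Function.Injective (fun p : Off n => e p.1) :=
    fun a b h => Subtype.ext (e.injective h)
  have hι1 : ∀ (y : Off n → ℂ) (p : Off n), ι y (e p.1) = y p := fun y p =>
    hinj.extend_apply y 0 p
  have hι2 : ∀ (y : Off n → ℂ) (i : Fin n), ι y (e (i, sh n i)) = 0 := by
    intro y i
    show Function.extend (fun p : Off n => e p.1) y 0 (e (i, sh n i)) = 0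
    rw [Function.extend_apply']
    · rfl
    · rintro ⟨p, hp⟩
      apply p.2
      rw [e.injective hp]
  let lam : (Fin m × Fin m → ℂ) → (Off n → ℂ) →ₗ[ℂ] ℂ := fun w =>
    { toFun := fun y => ((cyc n fun i => w (e (i, sh n i))).adjugate * ymat y).trace
      map_add' := fun a b => by rw [ymat_add, Matrix.mul_add, Matrix.trace_add]
      map_smul' := fun c a => by
        rw [ymat_smul, Matrix.mul_smul, Matrix.trace_smul, RingHom.id_apply] }
  have hlam : ∀ w y, lam w y = ((cyc n fun i => w (e (i, sh n i))).adjugate * ymat y).trace :=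
    fun w y => rfl
  have hFv : ∀ (w : Fin m × Fin m → ℂ) (y : Off n → ℂ), Fv (w + ι y) = Fv w + lam w y := by
    intro w y
    rw [hlam]
    show ((cyc n fun i => (w + ι y) (e (i, sh n i))).adjugate * offd n ((w + ι y) ∘ e)).trace =
      ((cyc n fun i => w (e (i, sh n i))).adjugate * offd n (w ∘ e)).trace + _
    have h1 : (fun i => (w + ι y) (e (i, sh n i))) = fun i => w (e (i, sh n i)) := by
      funext i
      rw [Pi.add_apply, hι2, add_zero]
    have h2 : offd n ((w + ι y) ∘ e) = offd n (w ∘ e) + ymat y := by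
      ext i j
      rw [Matrix.add_apply]
      show (if j = sh n i then 0 else ((w + ι y) ∘ e) (i, j)) =
        (if j = sh n i then 0 else (w ∘ e) (i, j)) + (if h : j ≠ sh n i then y ⟨(i, j), h⟩ else 0)
      by_cases hj : j = sh n i
      · rw [if_pos hj, if_pos hj, dif_neg (by simpa using hj), add_zero]
      · rw [if_neg hj, if_neg hj, dif_pos hj, Function.comp_apply, Pi.add_apply,
          hι1 y ⟨(i, j), hj⟩]
        rfl
    rw [h1, h2, Matrix.mul_add, Matrix.trace_add]
  have hlamι : ∀ (w : Fin m × Fin m → ℂ) (y z : Off n → ℂ), lam (w + ι y) z = lam w z := by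
    intro w y z
    rw [hlam, hlam]
    have h1 : (fun i => (w + ι y) (e (i, sh n i))) = fun i => w (e (i, sh n i)) := by
      funext i
      rw [Pi.add_apply, hι2, add_zero]
    rw [h1]
  -- the form is not zero
  have hre : rename e (limPoly n) ≠ 0 := by
    intro h
    exact limPoly_ne_zero hn (rename_injective e e.injective (h.trans (map_zero _).symm))
  have hsep : ∀ y : Off n → ℂ, (∀ w, L w ≠ 0 → Fv w ≠ 0 → lam w y = 0) → ∀ w, lam w y = 0 := by
    intro y hy
    let Λ : MvPolynomial (Fin m × Fin m) ℂ :=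
      rename e ((cyc n fun i => X (i, sh n i)).adjugate * (ymat y).map C).trace
    have hΛ : ∀ w, eval w Λ = lam w y := by
      intro w
      show eval w (rename e _) = _
      rw [eval_rename, map_trace_adj, map_cyc, hlam]
      congr 3
      · funext i; simp
      · ext i j; simp
    have h1 : l * rename e (limPoly n) * Λ = 0 := by
      refine MvPolynomial.funext fun w => ?_
      rw [map_mul, map_mul, hL, hF, hΛ, map_zero]
      by_cases h2 : L w = 0
      · rw [h2, zero_mul, zero_mul]
      · by_cases h3 : Fv w = 0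
        · rw [h3, mul_zero, zero_mul]
        · rw [hy w h2 h3, mul_zero]
    have h2 : Λ = 0 := (mul_eq_zero.1 h1).resolve_left (mul_ne_zero hl hre)
    intro w
    rw [← hΛ, h2, map_zero]
  have hzero : ∀ y : Off n → ℂ, (∀ w, lam w y = 0) → y = 0 := by
    intro y hy
    refine ymat_eq_zero (separate hn _ (ymat_sh y) fun x => ?_)
    have h1 := hy (Function.extend e (fun q => x q.1) 0)
    rw [hlam] at h1
    have h2 : (fun i => Function.extend e (fun q : Fin n × Fin n => x q.1) 0 (e (i, sh n i))) =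
        x := by
      funext i
      rw [e.injective.extend_apply]
    rwa [h2] at h1
  have hFne : ∃ w0, L w0 ≠ 0 ∧ Fv w0 ≠ 0 := by
    by_contra hcon
    push Not at hcon
    apply mul_ne_zero hl hre
    refine MvPolynomial.funext fun w => ?_
    rw [map_mul, hL, hF, map_zero]
    by_cases h : L w = 0
    · rw [h, zero_mul]
    · rw [hcon w h, mul_zero]
  obtain ⟨w0, hw1, hw2⟩ := hFne
  have hM0 : (B w0).det ≠ 0 := by
    rw [← hG]
    exact mul_ne_zero (pow_ne_zero _ hw1) hw2
  -- the map
  let β : (Off n → ℂ) →ₗ[ℂ] Matrix (Fin m) (Fin m) ℂ := (LinearMap.mulLeft ℂ (B w0)⁻¹) ∘ₗ B ∘ₗ ι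
  have hβ : ∀ y, β y = (B w0)⁻¹ * B (ι y) := fun y => rfl
  have hunit : IsUnit (B w0).det := isUnit_iff_ne_zero.2 hM0
  have hBβ : ∀ y, B (ι y) = B w0 * β y := by
    intro y
    rw [hβ, ← Matrix.mul_assoc, Matrix.mul_nonsing_inv _ hunit, Matrix.one_mul]
  have hβinj : Function.Injective β := by
    rw [injective_iff_map_eq_zero]
    intro y hy
    have hBy : B (ι y) = 0 := by rw [hBβ, hy, Matrix.mul_zero]
    apply hzero
    apply hsep
    intro w hw1 hw2
    by_contra hne
    have h1 := hG (w + ι ((-(Fv w) / lam w y) • y))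
    have h2 : B (w + ι ((-(Fv w) / lam w y) • y)) = B w := by
      rw [map_add, map_smul, map_smul, hBy, smul_zero, add_zero]
    rw [h2, ← hG, hFv, map_smul (lam w), smul_eq_mul, div_mul_cancel₀ _ hne, add_neg_cancel,
      mul_zero] at h1
    exact mul_ne_zero (pow_ne_zero _ hw1) hw2 h1.symm
  let T : Submodule ℂ (Off n → ℂ) := LinearMap.ker (L ∘ₗ ι) ⊓ LinearMap.ker (lam w0)
  have hT : Module.finrank ℂ (Off n → ℂ) ≤ Module.finrank ℂ T + 2 :=
    finrank_inf_ker (L ∘ₗ ι) (lam w0)
  have htr : ∀ t ∈ T, ∀ y, (β y * β t).trace = 0 := by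
    rintro t ⟨ht1, ht2⟩ y
    rw [SetLike.mem_coe, LinearMap.mem_ker] at ht1 ht2
    apply trace_mul_zero
    intro r s
    have h1 : ∀ z : Off n → ℂ, (B w0).det * (1 + β z).det = L (w0 + ι z) ^ (m - n) * Fv (w0 + ι z) := by
      intro z
      rw [hG, map_add, hBβ, ← Matrix.det_mul, Matrix.mul_add, Matrix.mul_one]
    apply mul_left_cancel₀ hM0
    have e1 : (1 : Matrix (Fin m) (Fin m) ℂ) + r • β y + s • β t = 1 + β (r • y + s • t) := by
      rw [map_add, map_smul, map_smul, add_assoc]
    have e2 : (1 : Matrix (Fin m) (Fin m) ℂ) + r • β y = 1 + β (r • y) := by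
      rw [map_smul]
    have ht1' : L (ι t) = 0 := ht1
    rw [e1, e2, h1, h1, hFv, hFv, map_add, map_add, map_add, map_add, map_smul (lam w0) s t, ht2,
      smul_zero, add_zero, map_smul ι s t, map_smul L s, ht1', smul_zero, add_zero]
    rw [map_add]
  have h : Module.finrank ℂ T + Module.finrank ℂ (Off n → ℂ) ≤ m * m :=
    finrank_trace β hβinj T htr
  have hE : Module.finrank ℂ (Off n → ℂ) = n * n - n := by
    rw [Module.finrank_fintype_fun_eq_card, card_off]
  rw [hE] at hT h
  omega

end PadDet
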